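import Pool.Agent.Helper4.SH.Scale
import Pool.Agent.Helper4.SH.GMV
import Pool.Agent.Helper4.SH.HardCore

/-!
# SM: very small gaps between zeros of zeta (MP_8958e8), existence in short intervals, unconditional

`L = log T`, `N = ⌊T^a⌋`, `M(t) = ∑_{m,n ≤ N, (m,n)=1} λ(m) λ(n) (mn)^(-1/2) (m/n)^(-it)`, `FM N t = |M(t)|²`.
`T` is the height, `[x, x+H]` a short interval, `H = T^b`, `2a < b`.
-/

open MeasureTheory Set Filter Topology
open Pool.Agent.Helper57.Zeta Pool.Agent.Helper57.PC Pool.Agent.Helper57.LH Pool.Agent.Helper78.SG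
open Pool.Agent.Helper4.SH
open scoped ContDiff

namespace Pool.Agent.Helper69.SM

/-- Liouville function, real valued -/
noncomputable def lam (n : ℕ) : ℝ := (-1) ^ (ArithmeticFunction.cardFactors n)

/-- coprime pairs `(m, n)`, `1 ≤ m, n ≤ N` -/
def CP (N : ℕ) : Finset (ℕ × ℕ) :=
  ((Finset.Icc 1 N) ×ˢ (Finset.Icc 1 N)).filter (fun x => Nat.Coprime x.1 x.2)

/-- the coefficient `λ(m) λ(n) (mn)^(-1/2)` -/
noncomputable def cf (x : ℕ × ℕ) : ℝ := lam x.1 * lam x.2 / Real.sqrt (x.1 * x.2)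

/-- `|M|²` -/
noncomputable def FM (N : ℕ) (t : ℝ) : ℝ :=
  ∑ z ∈ CP N ×ˢ CP N, (cf z.1 * cf z.2) *
    Real.cos (t * (Real.log ((z.1.1 * z.2.2 : ℕ) : ℝ) - Real.log ((z.1.2 * z.2.1 : ℕ) : ℝ)))

/-- mean value of `|M|²` -/
noncomputable def AN (N : ℕ) : ℝ := ∑ x ∈ CP N, 1 / ((x.1 : ℝ) * x.2)

/-- Fourier transform of the window of length `c`: `sin(π c y)/(π y)` -/
noncomputable def SB (c y : ℝ) : ℝ := c * Real.sinc (Real.pi * c * y)

/-- half the window: `c/2` mean spacings -/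
noncomputable def hw (c T : ℝ) : ℝ := Real.pi * c / Real.log T

/-- smooth weight on `[x, x + H]` -/
noncomputable def wt (g : ℝ → ℝ) (x H t : ℝ) : ℝ := g ((t - x) / H - 1 / 2)

/-- Close zeros at height `T`: multiple, or another zero within `c` mean spacings. -/
def CloseC (c T : ℝ) (ρ : ZS) : Prop :=
  2 ≤ analyticOrderNatAt xi (ρ : ℂ) ∨
    ∃ ρ' : ZS, ρ' ≠ ρ ∧ |(ρ : ℂ).im - (ρ' : ℂ).im| * Real.log T / (2 * Real.pi) ≤ c

open Classical in
/-- zeros with ordinate in `[x, x + H]` (a subset of the zeros up to `T`) -/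
noncomputable def ZI (x H T : ℝ) : Finset ZS :=
  (ZT T).filter (fun ρ => x ≤ (ρ : ℂ).im ∧ (ρ : ℂ).im ≤ x + H)

/-- coefficient of `cos (t log k)` in the prime sum, `2/L · Λ(k)/√k · SB c (log k/L)` -/
noncomputable def pk (c T : ℝ) (k : ℕ) : ℝ :=
  2 / Real.log T * (ArithmeticFunction.vonMangoldt k / Real.sqrt k * SB c (Real.log k / Real.log T))

/-- number of representations: `∑ 1/(m n')` over coprime pairs `(m,n)`, `(m',n')` with `k m n' = n m'` -/
noncomputable def EN (N k : ℕ) : ℝ :=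
  ∑ z ∈ (CP N ×ˢ CP N).filter (fun z => k * (z.1.1 * z.2.2) = z.1.2 * z.2.1), 1 / ((z.1.1 : ℝ) * z.2.2)

/-- minus the mean value of `|M|²` times the prime sum -/
noncomputable def BN (c T : ℝ) (N : ℕ) : ℝ :=
  - ∑ k ∈ Finset.Icc 1 (N ^ 2), pk c T k * (lam k / Real.sqrt k * EN N k)

end Pool.Agent.Helper69.SM
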