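import Pool.Agent.Helper69.SM.Defs

/-!
# SM-MV: mean values over a short interval
-/

open MeasureTheory Set Filter Topology
open Pool.Agent.Helper57.Zeta Pool.Agent.Helper57.PC Pool.Agent.Helper57.LH Pool.Agent.Helper78.SG
open Pool.Agent.Helper4.SH
open scoped ContDiff

namespace Pool.Agent.Helper69.SM

theorem mv_hcs (g : TF) : HasCompactSupport g.h := by
  refine HasCompactSupport.of_support_subset_isCompact (isCompact_Icc (a := -g.th) (b := g.th)) ?_
  intro y hy
  by_contra hcon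
  apply hy
  apply g.supp
  by_contra h
  exact hcon (abs_le.mp (not_le.mp h).le)

theorem wt_eq_om (g : ℝ → ℝ) (x H t : ℝ) : wt g x H t = om g H (t - x) := rfl

theorem wt_cont (g : TF) (x H : ℝ) : Continuous (fun t => wt g.h x H t) := by
  unfold wt
  exact g.smooth.continuous.comp (by fun_prop)

theorem wt_integrable (g : TF) (x : ℝ) {H : ℝ} (hH : 0 < H) : Integrable (fun t => wt g.h x H t) :=
  (om_integrable g hH).comp_sub_right x

theorem wt_int (g : TF) (x : ℝ) {H : ℝ} (hH : 0 < H) : ∫ t, wt g.h x H t = H * ∫ y, g.h y := by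
  rw [← om_int g hH, ← integral_sub_right_eq_self (fun t => om g.h H t) x]
  rfl

theorem wt_sub (g : TF) (x : ℝ) {H : ℝ} (hH : 0 < H) (F : ℝ → ℝ) :
    ∫ t, wt g.h x H t * F t = H * ∫ y, g.h y * F (x + H * (y + 1 / 2)) := by
  have h1 : ∀ t : ℝ, wt g.h x H t * F t =
      (fun y : ℝ => (fun z : ℝ => g.h z * F (x + H * (z + 1 / 2))) (y - 1 / 2)) ((t - x) / H) := by
    intro t
    simp only [wt]
    congr 2
    field_simp
    ring
  simp only [h1]
  rw [integral_sub_right_eq_self (fun t : ℝ => (fun y : ℝ => (fun z : ℝ => g.h z * F (x + H * (z + 1 / 2))) (y - 1 / 2)) (t / H)) x,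
    Measure.integral_comp_div (fun y : ℝ => (fun z : ℝ => g.h z * F (x + H * (z + 1 / 2))) (y - 1 / 2)) H,
    integral_sub_right_eq_self (fun z : ℝ => g.h z * F (x + H * (z + 1 / 2))) (1 / 2 : ℝ), abs_of_pos hH, smul_eq_mul]

theorem wt_osc (g : TF) (K : ℕ) : ∃ C : ℝ, 0 < C ∧ ∀ x H ν : ℝ, 0 < H →
    |∫ t, wt g.h x H t * Real.cos (t * ν)| ≤ C * H / (1 + |H * ν|) ^ K := by
  obtain ⟨C, hC, hCb⟩ := ker_decay g K
  refine ⟨C, hC, fun x H ν hH => ?_⟩
  rw [wt_sub g x hH (fun t => Real.cos (t * ν))]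
  have hc : ∀ F : ℝ → ℝ, Continuous F → Integrable (fun x => g.h x * F x) := by
    intro F hF
    refine (g.smooth.continuous.mul hF).integrable_of_hasCompactSupport ?_
    exact (mv_hcs g).mul_right
  set θ : ℝ := (x + H / 2) * ν with hθ
  have h1 : ∀ y : ℝ, g.h y * Real.cos ((x + H * (y + 1 / 2)) * ν) =
      Real.cos θ * (g.h y * Real.cos (H * ν * y)) -
        Real.sin θ * (g.h y * Real.sin (H * ν * y)) := by
    intro y
    have e : (x + H * (y + 1 / 2)) * ν = θ + H * ν * y := by rw [hθ]; ring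
    rw [e, Real.cos_add]
    ring
  simp only [h1]
  have hodd : ∫ y, g.h y * Real.sin (H * ν * y) = 0 := by
    have h2 : ∫ y, g.h y * Real.sin (H * ν * y) = ∫ y, g.h (-y) * Real.sin (H * ν * (-y)) :=
      (integral_neg_eq_self (fun y => g.h y * Real.sin (H * ν * y)) volume).symm
    have h3 : ∀ y : ℝ, g.h (-y) * Real.sin (H * ν * (-y)) = -(g.h y * Real.sin (H * ν * y)) := by
      intro y
      rw [g.even, mul_neg, Real.sin_neg]
      ring
    simp only [h3] at h2
    rw [integral_neg] at h2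
    linarith
  rw [integral_sub ((hc _ (by fun_prop)).const_mul _) ((hc _ (by fun_prop)).const_mul _),
    integral_const_mul, integral_const_mul, hodd, mul_zero, sub_zero]
  have h4 : ∫ y, g.h y * Real.cos (H * ν * y) = ker g.h 0 (H * ν) := by
    unfold Pool.Agent.Helper78.SG.ker
    simp only [zero_mul, Real.cosh_zero, one_mul]
  rw [h4, abs_mul, abs_of_pos hH, abs_mul]
  have h5 := hCb 0 (H * ν)
  simp only [abs_zero, Real.exp_zero, mul_one] at h5
  have h6 := Real.abs_cos_le_one θ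
  have h7 : |Real.cos θ| * |ker g.h 0 (H * ν)| ≤ 1 * (C / (1 + |H * ν|) ^ K) :=
    mul_le_mul h6 h5 (abs_nonneg _) (by norm_num)
  calc H * (|Real.cos θ| * |ker g.h 0 (H * ν)|) ≤ H * (1 * (C / (1 + |H * ν|) ^ K)) :=
        mul_le_mul_of_nonneg_left h7 hH.le
    _ = C * H / (1 + |H * ν|) ^ K := by ring

theorem gmvS (g : TF) {δ : ℝ} (hδ : 0 < δ) (K : ℕ) : ∃ C : ℝ, 0 < C ∧ ∀ x H : ℝ, 1 ≤ H →
    ∀ (ι : Type) (S : Finset ι) (c : ι → ℝ) (a b : ι → ℕ),
      (∀ i ∈ S, 1 ≤ a i ∧ 1 ≤ b i ∧ ((min (a i) (b i) : ℕ) : ℝ) ≤ H ^ (1 - δ)) →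
      |(∫ t, wt g.h x H t * ∑ i ∈ S, c i * Real.cos (t * (Real.log (a i) - Real.log (b i)))) -
        H * (∫ y, g.h y) * ∑ i ∈ S, (if a i = b i then c i else 0)| ≤
      C * H ^ (1 - δ * K) * ∑ i ∈ S, |c i| := by
  obtain ⟨C, hC, hosc⟩ := wt_osc g K
  refine ⟨C * 2 ^ K, by positivity, ?_⟩
  intro x T hT ι S c a b hab
  have hT0 : 0 < T := by linarith
  have hom := wt_integrable g x hT0
  have hcos : ∀ ν : ℝ, Integrable (fun t => wt g.h x T t * Real.cos (t * ν)) := by
    intro ν
    refine hom.mul_bdd (c := 1) ?_ ?_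
    · exact (Real.continuous_cos.comp (continuous_id.mul continuous_const)).aestronglyMeasurable
    · exact Filter.Eventually.of_forall fun t => by
        rw [Real.norm_eq_abs]; exact Real.abs_cos_le_one _
  have h1 : (∫ t, wt g.h x T t * ∑ i ∈ S, c i * Real.cos (t * (Real.log (a i) - Real.log (b i)))) =
      ∑ i ∈ S, c i * ∫ t, wt g.h x T t * Real.cos (t * (Real.log (a i) - Real.log (b i))) := by
    have e : (fun t => wt g.h x T t * ∑ i ∈ S, c i * Real.cos (t * (Real.log (a i) - Real.log (b i)))) =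
        fun t => ∑ i ∈ S, c i * (wt g.h x T t * Real.cos (t * (Real.log (a i) - Real.log (b i)))) := by
      funext t
      rw [Finset.mul_sum]
      exact Finset.sum_congr rfl fun i _ => by ring
    rw [e, integral_finsetSum]
    · exact Finset.sum_congr rfl fun i _ => integral_const_mul _ _
    · intro i _
      exact (hcos _).const_mul _
  rw [h1, Finset.mul_sum, ← Finset.sum_sub_distrib, Finset.mul_sum]
  refine (Finset.abs_sum_le_sum_abs _ _).trans (Finset.sum_le_sum fun i hi => ?_)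
  obtain ⟨ha, hb, hmin⟩ := hab i hi
  have hpos : 0 < T ^ (1 - δ * K) := Real.rpow_pos_of_pos hT0 _
  by_cases h : a i = b i
  · have e0 : Real.log (a i) - Real.log (b i) = 0 := by rw [h, sub_self]
    rw [if_pos h, e0]
    have e1 : (∫ t, wt g.h x T t * Real.cos (t * 0)) = T * ∫ y, g.h y := by
      rw [← wt_int g x hT0]
      congr 1
      funext t
      rw [mul_zero, Real.cos_zero, mul_one]
    rw [e1]
    have e2 : c i * (T * ∫ y, g.h y) - T * (∫ y, g.h y) * c i = 0 := by ring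
    rw [e2, abs_zero]
    positivity
  · rw [if_neg h, mul_zero, sub_zero, abs_mul, mul_comm]
    refine mul_le_mul_of_nonneg_right ?_ (abs_nonneg _)
    refine (hosc x T _ hT0).trans ?_
    have hgap := log_gap ha hb h hmin
    set ν := Real.log (a i) - Real.log (b i) with hν
    have hTd : 0 < T ^ δ := Real.rpow_pos_of_pos hT0 _
    have h2 : T ^ δ / 2 ≤ 1 + |T * ν| := by
      rw [abs_mul, abs_of_pos hT0]
      have h3 : T ^ δ / 2 = T * (1 / (2 * T ^ (1 - δ))) := by
        rw [Real.rpow_sub hT0, Real.rpow_one]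
        field_simp
      have h4 := mul_le_mul_of_nonneg_left hgap hT0.le
      rw [← h3] at h4
      linarith
    have h5 : (T ^ δ / 2) ^ K ≤ (1 + |T * ν|) ^ K := pow_le_pow_left₀ (by positivity) h2 K
    have h6 : C * T / (1 + |T * ν|) ^ K ≤ C * T / (T ^ δ / 2) ^ K :=
      div_le_div_of_nonneg_left (by positivity) (by positivity) h5
    refine h6.trans (le_of_eq ?_)
    rw [Real.rpow_sub hT0, Real.rpow_one, Real.rpow_mul hT0.le, Real.rpow_natCast, div_pow]
    field_simp

end Pool.Agent.Helper69.SM
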