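import Pool.Agent.Helper69.SM.Defs

/-!
# SM-AR: the diagonal terms
-/

open MeasureTheory Set Filter Topology
open Pool.Agent.Helper57.Zeta Pool.Agent.Helper57.PC Pool.Agent.Helper57.LH Pool.Agent.Helper78.SG
open Pool.Agent.Helper4.SH
open scoped ContDiff

namespace Pool.Agent.Helper69.SM

theorem lam_mul {m n : ℕ} (hm : m ≠ 0) (hn : n ≠ 0) : lam (m * n) = lam m * lam n := by
  unfold lam
  rw [ArithmeticFunction.cardFactors_mul hm hn, pow_add]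

theorem lam_mul_self (n : ℕ) : lam n * lam n = 1 := by
  unfold lam
  rw [← mul_pow]
  norm_num

theorem lam_abs (n : ℕ) : |lam n| = 1 := by
  unfold lam
  rw [abs_pow]
  norm_num

theorem lam_prime {p : ℕ} (hp : p.Prime) : lam p = -1 := by
  unfold lam
  rw [ArithmeticFunction.cardFactors_apply_prime hp]
  norm_num

theorem mem_CP {N : ℕ} {x : ℕ × ℕ} :
    x ∈ CP N ↔ (1 ≤ x.1 ∧ x.1 ≤ N) ∧ (1 ≤ x.2 ∧ x.2 ≤ N) ∧ Nat.Coprime x.1 x.2 := by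
  unfold CP
  rw [Finset.mem_filter, Finset.mem_product, Finset.mem_Icc, Finset.mem_Icc]
  tauto

theorem cf_abs_le {N : ℕ} {x : ℕ × ℕ} (hx : x ∈ CP N) : |cf x| ≤ 1 := by
  obtain ⟨⟨h1, -⟩, ⟨h2, -⟩, -⟩ := mem_CP.1 hx
  have h3 : (1 : ℝ) ≤ x.1 := by exact_mod_cast h1
  have h4 : (1 : ℝ) ≤ x.2 := by exact_mod_cast h2
  unfold cf
  rw [abs_div, abs_mul, lam_abs, lam_abs, one_mul, abs_of_nonneg (Real.sqrt_nonneg _)]
  rw [div_le_one (Real.sqrt_pos.2 (by positivity))]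
  exact Real.one_le_sqrt.2 (by nlinarith)

theorem cf_mul {x y : ℕ × ℕ} (hx1 : x.1 ≠ 0) (hx2 : x.2 ≠ 0) (hy1 : y.1 ≠ 0) (hy2 : y.2 ≠ 0) {k : ℕ} (hk : k ≠ 0)
    (h : k * (x.1 * y.2) = x.2 * y.1) :
    cf x * cf y = lam k / Real.sqrt k * (1 / ((x.1 : ℝ) * y.2)) := by
  have hk0 : (0 : ℝ) < k := by exact_mod_cast Nat.pos_of_ne_zero hk
  have a1 : (0 : ℝ) < x.1 := by exact_mod_cast Nat.pos_of_ne_zero hx1
  have a2 : (0 : ℝ) < x.2 := by exact_mod_cast Nat.pos_of_ne_zero hx2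
  have a3 : (0 : ℝ) < y.1 := by exact_mod_cast Nat.pos_of_ne_zero hy1
  have a4 : (0 : ℝ) < y.2 := by exact_mod_cast Nat.pos_of_ne_zero hy2
  have hl : lam x.1 * lam x.2 * (lam y.1 * lam y.2) = lam k := by
    have h1 : lam (k * (x.1 * y.2)) = lam (x.2 * y.1) := by rw [h]
    rw [lam_mul hk (mul_ne_zero hx1 hy2), lam_mul hx1 hy2, lam_mul hx2 hy1] at h1
    have e1 := lam_mul_self x.1
    have e2 := lam_mul_self y.2
    calc lam x.1 * lam x.2 * (lam y.1 * lam y.2) = (lam x.2 * lam y.1) * (lam x.1 * lam y.2) := by ring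
      _ = lam k * (lam x.1 * lam y.2) * (lam x.1 * lam y.2) := by rw [← h1]
      _ = lam k * ((lam x.1 * lam x.1) * (lam y.2 * lam y.2)) := by ring
      _ = lam k := by rw [e1, e2]; ring
  have hs : Real.sqrt ((x.1 : ℝ) * x.2) * Real.sqrt ((y.1 : ℝ) * y.2) = Real.sqrt k * (x.1 * y.2) := by
    rw [← Real.sqrt_mul (by positivity)]
    have h2 : (k : ℝ) * (x.1 * y.2) = x.2 * y.1 := by exact_mod_cast h
    have e : (x.1 : ℝ) * x.2 * (y.1 * y.2) = k * ((x.1 * y.2) ^ 2) := by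
      calc (x.1 : ℝ) * x.2 * (y.1 * y.2) = (x.1 * y.2) * (x.2 * y.1) := by ring
        _ = (x.1 * y.2) * (k * (x.1 * y.2)) := by rw [← h2]
        _ = _ := by ring
    rw [e, Real.sqrt_mul hk0.le, Real.sqrt_sq (by positivity)]
  unfold cf
  rw [div_mul_div_comm, hl, hs]
  have : Real.sqrt (k : ℝ) ≠ 0 := (Real.sqrt_pos.2 hk0).ne'
  field_simp

theorem diag_iff {N : ℕ} {x y : ℕ × ℕ} (hx : x ∈ CP N) (hy : y ∈ CP N) :
    x.1 * y.2 = x.2 * y.1 ↔ x = y := by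
  obtain ⟨⟨h1, -⟩, ⟨h2, -⟩, h3⟩ := mem_CP.1 hx
  obtain ⟨⟨g1, -⟩, ⟨g2, -⟩, g3⟩ := mem_CP.1 hy
  constructor
  · intro h
    have d1 : x.1 ∣ y.1 := by
      have : x.1 ∣ x.2 * y.1 := ⟨y.2, h.symm⟩
      exact h3.dvd_of_dvd_mul_left this
    have d2 : y.1 ∣ x.1 := by
      have : y.1 ∣ x.1 * y.2 := ⟨x.2, by rw [h]; ring⟩
      exact g3.dvd_of_dvd_mul_right this
    have e1 : x.1 = y.1 := Nat.dvd_antisymm d1 d2
    have e2 : x.2 = y.2 := by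
      rw [e1] at h
      have : y.1 * y.2 = y.1 * x.2 := by rw [h]; ring
      exact (Nat.eq_of_mul_eq_mul_left (by omega) this).symm
    exact Prod.ext e1 e2
  · rintro rfl
    ring

/-- the diagonal of `|M|²` -/
theorem diag_sum (N : ℕ) :
    ∑ z ∈ CP N ×ˢ CP N, (if z.1.1 * z.2.2 = z.1.2 * z.2.1 then cf z.1 * cf z.2 else 0) = AN N := by
  rw [Finset.sum_product]
  unfold AN
  refine Finset.sum_congr rfl fun x hx => ?_
  have h1 : ∀ y ∈ CP N, (if x.1 * y.2 = x.2 * y.1 then cf x * cf y else 0) = if x = y then cf x * cf y else 0 := by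
    intro y hy
    by_cases h : x = y
    · rw [if_pos h, if_pos ((diag_iff hx hy).2 h)]
    · rw [if_neg h, if_neg (fun hh => h ((diag_iff hx hy).1 hh))]
  rw [Finset.sum_congr rfl h1, Finset.sum_ite_eq, if_pos hx]
  obtain ⟨⟨h1, -⟩, ⟨h2, -⟩, -⟩ := mem_CP.1 hx
  have h := cf_mul (x := x) (y := x) (k := 1) (by omega) (by omega) (by omega) (by omega) one_ne_zero (by ring)
  rw [h]
  unfold lam
  simp

/-- the diagonal of `|M|²` times `cos (t log k)` -/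
theorem diag_k (N : ℕ) {k : ℕ} (hk : k ≠ 0) :
    ∑ z ∈ CP N ×ˢ CP N, (if k * (z.1.1 * z.2.2) = z.1.2 * z.2.1 then cf z.1 * cf z.2 else 0) =
      lam k / Real.sqrt k * EN N k := by
  unfold EN
  rw [← Finset.sum_filter, Finset.mul_sum]
  refine Finset.sum_congr rfl fun z hz => ?_
  obtain ⟨h1, h2⟩ := Finset.mem_filter.1 hz
  obtain ⟨h3, h4⟩ := Finset.mem_product.1 h1
  obtain ⟨⟨a1, -⟩, ⟨a2, -⟩, -⟩ := mem_CP.1 h3
  obtain ⟨⟨b1, -⟩, ⟨b2, -⟩, -⟩ := mem_CP.1 h4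
  exact cf_mul (by omega) (by omega) (by omega) (by omega) hk h2

theorem EN_nonneg (N k : ℕ) : 0 ≤ EN N k := by
  unfold EN
  exact Finset.sum_nonneg fun z _ => by positivity

/-- no representation when `k > N²` -/
theorem EN_zero {N k : ℕ} (hk : N ^ 2 < k) : EN N k = 0 := by
  unfold EN
  rw [Finset.sum_eq_zero_iff_of_nonneg (fun z _ => by positivity)]
  intro z hz
  exfalso
  obtain ⟨h1, h2⟩ := Finset.mem_filter.1 hz
  obtain ⟨h3, h4⟩ := Finset.mem_product.1 h1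
  obtain ⟨⟨a1, a1'⟩, ⟨a2, a2'⟩, -⟩ := mem_CP.1 h3
  obtain ⟨⟨b1, b1'⟩, ⟨b2, b2'⟩, -⟩ := mem_CP.1 h4
  have h5 : z.1.2 * z.2.1 ≤ N ^ 2 := by
    rw [pow_two]; exact Nat.mul_le_mul a2' b1'
  have h6 : k ≤ k * (z.1.1 * z.2.2) := Nat.le_mul_of_pos_right k (Nat.mul_pos a1 b2)
  omega

/-- coprime sum for a prime -/
noncomputable def AP (N p : ℕ) : ℝ :=
  ∑ x ∈ (Finset.Icc 1 (N / p) ×ˢ Finset.Icc 1 N).filter (fun x => Nat.Coprime (p * x.1) x.2), 1 / ((x.1 : ℝ) * x.2)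

theorem EN_prime {N p : ℕ} (hp : p.Prime) : 2 * AP N p ≤ EN N p := by
  classical
  set S := (Finset.Icc 1 (N / p) ×ˢ Finset.Icc 1 N).filter (fun x : ℕ × ℕ => Nat.Coprime (p * x.1) x.2) with hS
  set R := (CP N ×ˢ CP N).filter (fun z => p * (z.1.1 * z.2.2) = z.1.2 * z.2.1) with hR
  set i1 : ℕ × ℕ → (ℕ × ℕ) × (ℕ × ℕ) := fun x => ((x.1, x.2), (p * x.1, x.2)) with hi1
  set i2 : ℕ × ℕ → (ℕ × ℕ) × (ℕ × ℕ) := fun x => ((x.2, p * x.1), (x.2, x.1)) with hi2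
  have hmem : ∀ x ∈ S, (1 ≤ x.1 ∧ p * x.1 ≤ N) ∧ (1 ≤ x.2 ∧ x.2 ≤ N) ∧ Nat.Coprime (p * x.1) x.2 := by
    intro x hx
    obtain ⟨h1, h2⟩ := Finset.mem_filter.1 hx
    obtain ⟨h3, h4⟩ := Finset.mem_product.1 h1
    obtain ⟨h5, h6⟩ := Finset.mem_Icc.1 h3
    obtain ⟨h7, h8⟩ := Finset.mem_Icc.1 h4
    refine ⟨⟨h5, ?_⟩, ⟨h7, h8⟩, h2⟩
    have := (Nat.le_div_iff_mul_le hp.pos).1 h6
    rw [mul_comm]; exact this
  have hp2 := hp.two_le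
  have hle : ∀ x ∈ S, x.1 ≤ N := by
    intro x hx
    obtain ⟨⟨_, h2⟩, _, _⟩ := hmem x hx
    exact le_trans (Nat.le_mul_of_pos_left _ hp.pos) h2
  have m1 : ∀ x ∈ S, i1 x ∈ R := by
    intro x hx
    obtain ⟨⟨h1, h2⟩, ⟨h3, h4⟩, h5⟩ := hmem x hx
    have h6 := hle x hx
    rw [hR, Finset.mem_filter, Finset.mem_product]
    refine ⟨⟨mem_CP.2 ⟨⟨h1, h6⟩, ⟨h3, h4⟩, Nat.Coprime.coprime_mul_left h5⟩,
      mem_CP.2 ⟨⟨?_, h2⟩, ⟨h3, h4⟩, h5⟩⟩, ?_⟩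
    · exact Nat.mul_pos hp.pos h1
    · simp only [hi1]; ring
  have m2 : ∀ x ∈ S, i2 x ∈ R := by
    intro x hx
    obtain ⟨⟨h1, h2⟩, ⟨h3, h4⟩, h5⟩ := hmem x hx
    have h6 := hle x hx
    rw [hR, Finset.mem_filter, Finset.mem_product]
    refine ⟨⟨mem_CP.2 ⟨⟨h3, h4⟩, ⟨?_, h2⟩, h5.symm⟩,
      mem_CP.2 ⟨⟨h3, h4⟩, ⟨h1, h6⟩, (Nat.Coprime.coprime_mul_left h5).symm⟩⟩, ?_⟩
    · exact Nat.mul_pos hp.pos h1
    · simp only [hi2]; ring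
  have hinj1 : Set.InjOn i1 (S : Set (ℕ × ℕ)) := by
    intro x _ y _ h
    simp only [hi1, Prod.mk.injEq] at h
    exact Prod.ext h.1.1 h.1.2
  have hinj2 : Set.InjOn i2 (S : Set (ℕ × ℕ)) := by
    intro x _ y _ h
    simp only [hi2, Prod.mk.injEq] at h
    exact Prod.ext h.2.2 h.1.1
  have hdis : Disjoint (S.image i1) (S.image i2) := by
    rw [Finset.disjoint_left]
    intro z hz1 hz2
    obtain ⟨x, hx, rfl⟩ := Finset.mem_image.1 hz1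
    obtain ⟨y, hy, h⟩ := Finset.mem_image.1 hz2
    simp only [hi1, hi2, Prod.mk.injEq] at h
    obtain ⟨⟨h1, h2⟩, h3, h4⟩ := h
    obtain ⟨⟨g1, g2⟩, _, _⟩ := hmem y hy
    have : p * y.1 = y.1 := by omega
    nlinarith
  have hsub : S.image i1 ∪ S.image i2 ⊆ R := by
    intro z hz
    rcases Finset.mem_union.1 hz with h | h
    · obtain ⟨x, hx, rfl⟩ := Finset.mem_image.1 h
      exact m1 x hx
    · obtain ⟨x, hx, rfl⟩ := Finset.mem_image.1 h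
      exact m2 x hx
  have e1 : ∑ z ∈ S.image i1, 1 / ((z.1.1 : ℝ) * z.2.2) = AP N p := by
    rw [Finset.sum_image hinj1]
    rfl
  have e2 : ∑ z ∈ S.image i2, 1 / ((z.1.1 : ℝ) * z.2.2) = AP N p := by
    rw [Finset.sum_image hinj2]
    unfold AP
    refine Finset.sum_congr rfl fun x _ => ?_
    simp only [hi2]
    rw [mul_comm]
  calc 2 * AP N p = ∑ z ∈ S.image i1 ∪ S.image i2, 1 / ((z.1.1 : ℝ) * z.2.2) := by
        rw [Finset.sum_union hdis, e1, e2]; ring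
    _ ≤ ∑ z ∈ R, 1 / ((z.1.1 : ℝ) * z.2.2) :=
        Finset.sum_le_sum_of_subset_of_nonneg hsub fun z _ _ => by positivity
    _ = EN N p := rfl

/-- harmonic sum -/
noncomputable def HS (n : ℕ) : ℝ := ∑ m ∈ Finset.Icc 1 n, 1 / (m : ℝ)

theorem EN_le {N k : ℕ} (hk : k ≠ 0) : EN N k ≤ (k.divisors.card : ℝ) * HS N ^ 2 := by
  classical
  set R := (CP N ×ˢ CP N).filter (fun z => k * (z.1.1 * z.2.2) = z.1.2 * z.2.1) with hR
  set Q := k.divisors ×ˢ (Finset.Icc 1 N ×ˢ Finset.Icc 1 N) with hQ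
  set i : (ℕ × ℕ) × (ℕ × ℕ) → ℕ × (ℕ × ℕ) := fun z => (z.1.2 / z.2.2, (z.1.1, z.2.2)) with hi
  have key : ∀ z ∈ R, (1 ≤ z.1.1 ∧ z.1.1 ≤ N) ∧ (1 ≤ z.2.2 ∧ z.2.2 ≤ N) ∧ (1 ≤ z.1.2) ∧
      z.1.2 = z.2.2 * (z.1.2 / z.2.2) ∧ (z.1.2 / z.2.2) ∣ k ∧ k * z.1.1 = (z.1.2 / z.2.2) * z.2.1 := by
    intro z hz
    obtain ⟨h1, h2⟩ := Finset.mem_filter.1 hz
    obtain ⟨h3, h4⟩ := Finset.mem_product.1 h1
    obtain ⟨⟨a1, a1'⟩, ⟨a2, a2'⟩, a3⟩ := mem_CP.1 h3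
    obtain ⟨⟨b1, b1'⟩, ⟨b2, b2'⟩, b3⟩ := mem_CP.1 h4
    have d1 : z.2.2 ∣ z.1.2 := by
      have : z.2.2 ∣ z.1.2 * z.2.1 := ⟨k * z.1.1, by rw [← h2]; ring⟩
      exact b3.symm.dvd_of_dvd_mul_right this
    have e1 : z.1.2 = z.2.2 * (z.1.2 / z.2.2) := (Nat.mul_div_cancel' d1).symm
    set d := z.1.2 / z.2.2 with hd
    have e2 : k * z.1.1 = d * z.2.1 := by
      have : z.2.2 * (k * z.1.1) = z.2.2 * (d * z.2.1) := by
        calc z.2.2 * (k * z.1.1) = k * (z.1.1 * z.2.2) := by ring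
          _ = z.1.2 * z.2.1 := h2
          _ = (z.2.2 * d) * z.2.1 := by rw [← e1]
          _ = _ := by ring
      exact Nat.eq_of_mul_eq_mul_left (by omega) this
    have d2 : d ∣ k := by
      have c1 : Nat.Coprime z.1.1 d := by
        rw [e1] at a3
        exact Nat.Coprime.coprime_mul_left_right a3
      have : d ∣ k * z.1.1 := ⟨z.2.1, e2⟩
      exact c1.symm.dvd_of_dvd_mul_right this
    exact ⟨⟨a1, a1'⟩, ⟨b2, b2'⟩, a2, e1, d2, e2⟩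
  have hinj : Set.InjOn i (R : Set ((ℕ × ℕ) × (ℕ × ℕ))) := by
    intro z hz w hw h
    obtain ⟨⟨z1, _⟩, _, z3, z4, z5, z6⟩ := key z hz
    obtain ⟨⟨w1, _⟩, _, w3, w4, w5, w6⟩ := key w hw
    simp only [hi, Prod.mk.injEq] at h
    obtain ⟨h1, h2, h3⟩ := h
    have e1 : z.1.2 = w.1.2 := by rw [z4, w4, h1, h3]
    have hd : 0 < w.1.2 / w.2.2 := by
      rcases Nat.eq_zero_or_pos (w.1.2 / w.2.2) with h0 | h0
      · rw [h0] at w4; omega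
      · exact h0
    have e2 : z.2.1 = w.2.1 := by
      have : (w.1.2 / w.2.2) * z.2.1 = (w.1.2 / w.2.2) * w.2.1 := by
        rw [← w6, ← h1, ← z6, h2]
      exact Nat.eq_of_mul_eq_mul_left hd this
    exact Prod.ext (Prod.ext h2 e1) (Prod.ext e2 h3)
  have hmap : R.image i ⊆ Q := by
    intro q hq
    obtain ⟨z, hz, rfl⟩ := Finset.mem_image.1 hq
    obtain ⟨⟨z1, z1'⟩, ⟨z2, z2'⟩, _, _, z5, _⟩ := key z hz
    rw [hQ, Finset.mem_product, Finset.mem_product, Finset.mem_Icc, Finset.mem_Icc, Nat.mem_divisors]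
    exact ⟨⟨z5, hk⟩, ⟨z1, z1'⟩, ⟨z2, z2'⟩⟩
  have e1 : EN N k = ∑ q ∈ R.image i, 1 / ((q.2.1 : ℝ) * q.2.2) := by
    rw [Finset.sum_image hinj]
    rfl
  rw [e1]
  refine (Finset.sum_le_sum_of_subset_of_nonneg hmap fun q _ _ => by positivity).trans (le_of_eq ?_)
  rw [hQ, Finset.sum_product]
  simp only [Finset.sum_const, nsmul_eq_mul]
  congr 1
  rw [Finset.sum_product, pow_two, HS, Finset.sum_mul_sum]
  refine Finset.sum_congr rfl fun m _ => Finset.sum_congr rfl fun n _ => ?_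
  rw [one_div_mul_one_div]

end Pool.Agent.Helper69.SM
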