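import Pool.Agent.Helper69.SM.Arith

/-!
# SM-DS: sums over coprime pairs
-/

open MeasureTheory Set Filter Topology
open Pool.Agent.Helper57.Zeta Pool.Agent.Helper57.PC Pool.Agent.Helper57.LH Pool.Agent.Helper78.SG
open Pool.Agent.Helper4.SH

namespace Pool.Agent.Helper69.SM

theorem HS_eq (n : ℕ) : HS n = (harmonic n : ℝ) := by
  unfold HS
  rw [harmonic_eq_sum_Icc]
  push_cast
  refine Finset.sum_congr rfl fun m _ => ?_
  rw [one_div]

theorem HS_nonneg (n : ℕ) : 0 ≤ HS n := Finset.sum_nonneg fun _ _ => by positivity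

/-- `log u - log d ≤ HS (u / d) ≤ 1 + log u - log d` for `1 ≤ d ≤ u` -/
theorem HS_div {u d : ℕ} (hd : 1 ≤ d) (hu : d ≤ u) :
    Real.log u - Real.log d ≤ HS (u / d) ∧ HS (u / d) ≤ 1 + (Real.log u - Real.log d) := by
  have hd0 : (0 : ℝ) < d := by exact_mod_cast hd
  have hu0 : (0 : ℝ) < u := by exact_mod_cast (lt_of_lt_of_le hd hu)
  have h1 : (1 : ℝ) ≤ (u : ℝ) / d := by
    rw [le_div_iff₀ hd0, one_mul]
    exact_mod_cast hu
  have h2 : ⌊(u : ℝ) / d⌋₊ = u / d := Nat.floor_div_eq_div u d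
  have h3 := log_le_harmonic_floor ((u : ℝ) / d) (by positivity)
  have h4 := harmonic_floor_le_one_add_log ((u : ℝ) / d) h1
  rw [h2, Real.log_div hu0.ne' hd0.ne'] at h3 h4
  rw [HS_eq]
  exact ⟨h3, h4⟩

/-- sum over coprime pairs `m ≤ u`, `n ≤ v` -/
noncomputable def DD (u v : ℕ) : ℝ :=
  ∑ x ∈ (Finset.Icc 1 u ×ˢ Finset.Icc 1 v).filter (fun x => Nat.Coprime x.1 x.2), 1 / ((x.1 : ℝ) * x.2)

theorem AN_eq (N : ℕ) : AN N = DD N N := rfl

theorem mult_sum (u d : ℕ) (hd : 1 ≤ d) :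
    ∑ m ∈ (Finset.Icc 1 u).filter (fun m => d ∣ m), 1 / (m : ℝ) = 1 / d * HS (u / d) := by
  classical
  have h1 : (Finset.Icc 1 u).filter (fun m => d ∣ m) = (Finset.Icc 1 (u / d)).image (fun k => d * k) := by
    ext m
    rw [Finset.mem_filter, Finset.mem_Icc, Finset.mem_image]
    constructor
    · rintro ⟨⟨h1, h2⟩, k, rfl⟩
      refine ⟨k, Finset.mem_Icc.2 ⟨?_, ?_⟩, rfl⟩
      · rcases Nat.eq_zero_or_pos k with h | h
        · subst h; omega
        · exact h
      · rw [Nat.le_div_iff_mul_le (by omega), mul_comm]; exact h2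
    · rintro ⟨k, hk, rfl⟩
      obtain ⟨h1, h2⟩ := Finset.mem_Icc.1 hk
      rw [Nat.le_div_iff_mul_le (by omega), mul_comm] at h2
      exact ⟨⟨Nat.mul_pos hd h1, h2⟩, ⟨k, rfl⟩⟩
  rw [h1, Finset.sum_image]
  · unfold HS
    rw [Finset.mul_sum]
    refine Finset.sum_congr rfl fun k _ => ?_
    push_cast
    rw [one_div_mul_one_div]
  · intro a _ b _ h
    exact Nat.eq_of_mul_eq_mul_left (by omega) h

theorem DD_eq (u v : ℕ) : DD u v = ∑ d ∈ Finset.Icc 1 u, (ArithmeticFunction.moebius d : ℝ) / (d : ℝ) ^ 2 * (HS (u / d) * HS (v / d)) := by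
  classical
  unfold DD
  rw [Finset.sum_filter]
  have h1 : ∀ x ∈ Finset.Icc 1 u ×ˢ Finset.Icc 1 v, (if Nat.Coprime x.1 x.2 then 1 / ((x.1 : ℝ) * x.2) else 0) =
      ∑ d ∈ Finset.Icc 1 u, (if d ∣ x.1 ∧ d ∣ x.2 then (ArithmeticFunction.moebius d : ℝ) * (1 / ((x.1 : ℝ) * x.2)) else 0) := by
    intro x hx
    obtain ⟨h2, h3⟩ := Finset.mem_product.1 hx
    obtain ⟨h4, h5⟩ := Finset.mem_Icc.1 h2
    obtain ⟨h6, h7⟩ := Finset.mem_Icc.1 h3
    have hg : Nat.gcd x.1 x.2 ≠ 0 := by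
      intro h
      have := Nat.eq_zero_of_gcd_eq_zero_left h
      omega
    have e1 : ∑ d ∈ (Nat.gcd x.1 x.2).divisors, (ArithmeticFunction.moebius d : ℝ) = if Nat.Coprime x.1 x.2 then 1 else 0 := by
      have h8 := ArithmeticFunction.coe_zeta_mul_apply (f := ArithmeticFunction.moebius) (x := Nat.gcd x.1 x.2)
      rw [ArithmeticFunction.coe_zeta_mul_moebius, ArithmeticFunction.one_apply] at h8
      have h9 : ((∑ d ∈ (Nat.gcd x.1 x.2).divisors, ArithmeticFunction.moebius d : ℤ) : ℝ) = ((if Nat.gcd x.1 x.2 = 1 then 1 else 0 : ℤ) : ℝ) := by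
        rw [← h8]
      push_cast at h9
      rw [h9]
    rw [← Finset.sum_filter]
    have e2 : (Finset.Icc 1 u).filter (fun d => d ∣ x.1 ∧ d ∣ x.2) = (Nat.gcd x.1 x.2).divisors := by
      ext d
      rw [Finset.mem_filter, Finset.mem_Icc, Nat.mem_divisors, Nat.dvd_gcd_iff]
      constructor
      · rintro ⟨_, h⟩
        exact ⟨h, hg⟩
      · rintro ⟨h, _⟩
        exact ⟨⟨Nat.pos_of_dvd_of_pos h.1 (by omega), (Nat.le_of_dvd (by omega) h.1).trans h5⟩, h⟩
    rw [e2, ← Finset.sum_mul, e1]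
    split_ifs <;> simp
  rw [Finset.sum_congr rfl h1, Finset.sum_comm]
  refine Finset.sum_congr rfl fun d hd => ?_
  obtain ⟨hd1, hd2⟩ := Finset.mem_Icc.1 hd
  have hd0 : (0 : ℝ) < d := by exact_mod_cast hd1
  have h2 : ∀ x ∈ Finset.Icc 1 u ×ˢ Finset.Icc 1 v,
      (if d ∣ x.1 ∧ d ∣ x.2 then (ArithmeticFunction.moebius d : ℝ) * (1 / ((x.1 : ℝ) * x.2)) else 0) =
      (ArithmeticFunction.moebius d : ℝ) * ((if d ∣ x.1 then 1 / (x.1 : ℝ) else 0) * (if d ∣ x.2 then 1 / (x.2 : ℝ) else 0)) := by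
    intro x _
    by_cases h3 : d ∣ x.1
    · by_cases h4 : d ∣ x.2
      · rw [if_pos ⟨h3, h4⟩, if_pos h3, if_pos h4, one_div_mul_one_div]
      · rw [if_neg (fun h => h4 h.2), if_neg h4, mul_zero, mul_zero]
    · rw [if_neg (fun h => h3 h.1), if_neg h3, zero_mul, mul_zero]
  rw [Finset.sum_congr rfl h2, ← Finset.mul_sum]
  have h3 : ∑ x ∈ Finset.Icc 1 u ×ˢ Finset.Icc 1 v,
      ((if d ∣ x.1 then 1 / (x.1 : ℝ) else 0) * (if d ∣ x.2 then 1 / (x.2 : ℝ) else 0)) =
      (1 / d * HS (u / d)) * (1 / d * HS (v / d)) := by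
    rw [Finset.sum_product, ← mult_sum u d hd1, ← mult_sum v d hd1, Finset.sum_filter, Finset.sum_filter,
      Finset.sum_mul_sum]
  rw [h3]
  field_simp

/-- `κ = ∑ μ(d)/d²` -/
noncomputable def kp : ℝ := ∑' d : ℕ, (ArithmeticFunction.moebius d : ℝ) / (d : ℝ) ^ 2

theorem kp_term (d : ℕ) : |(ArithmeticFunction.moebius d : ℝ) / (d : ℝ) ^ 2| ≤ 1 / (d : ℝ) ^ 2 := by
  rw [abs_div, abs_of_nonneg (by positivity : (0 : ℝ) ≤ (d : ℝ) ^ 2)]
  have h1 : |(ArithmeticFunction.moebius d : ℝ)| ≤ 1 := by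
    have := ArithmeticFunction.abs_moebius_le_one (n := d)
    exact_mod_cast this
  exact div_le_div_of_nonneg_right h1 (by positivity)

theorem kp_summable : Summable (fun d : ℕ => (ArithmeticFunction.moebius d : ℝ) / (d : ℝ) ^ 2) := by
  refine Summable.of_norm_bounded (g := fun d : ℕ => 1 / (d : ℝ) ^ 2) ?_ ?_
  · exact Real.summable_one_div_nat_pow.mpr one_lt_two
  · intro d
    rw [Real.norm_eq_abs]
    exact kp_term d

theorem kp_pos : 0 < kp := by
  have hz := hasSum_zeta_two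
  have hs := hz.summable
  have h0 : kp = (∑ d ∈ Finset.range 2, (ArithmeticFunction.moebius d : ℝ) / (d : ℝ) ^ 2) +
      ∑' d : ℕ, (ArithmeticFunction.moebius (d + 2) : ℝ) / ((d + 2 : ℕ) : ℝ) ^ 2 :=
    (kp_summable.sum_add_tsum_nat_add 2).symm
  have h1 : ∑' d : ℕ, (1 : ℝ) / ((d : ℕ) : ℝ) ^ 2 = (∑ d ∈ Finset.range 2, (1 : ℝ) / (d : ℝ) ^ 2) +
      ∑' d : ℕ, (1 : ℝ) / ((d + 2 : ℕ) : ℝ) ^ 2 := (hs.sum_add_tsum_nat_add 2).symm
  rw [hz.tsum_eq] at h1
  have h2 : |∑' d : ℕ, (ArithmeticFunction.moebius (d + 2) : ℝ) / ((d + 2 : ℕ) : ℝ) ^ 2| ≤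
      ∑' d : ℕ, (1 : ℝ) / ((d + 2 : ℕ) : ℝ) ^ 2 := by
    have hs2 : Summable (fun d : ℕ => (1 : ℝ) / ((d + 2 : ℕ) : ℝ) ^ 2) := (summable_nat_add_iff 2).mpr hs
    rw [← Real.norm_eq_abs]
    refine tsum_of_norm_bounded hs2.hasSum fun d => ?_
    rw [Real.norm_eq_abs]
    exact kp_term (d + 2)
  simp only [Finset.sum_range_succ, Finset.sum_range_zero, Nat.cast_zero, Nat.cast_one,
    ArithmeticFunction.map_zero, ArithmeticFunction.moebius_apply_one, Int.cast_zero, Int.cast_one] at h0 h1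
  norm_num at h0 h1
  have hpi : Real.pi ^ 2 < 10 := by
    have := Real.pi_lt_d2
    have := Real.pi_pos
    nlinarith
  have h3 := (abs_le.1 h2).1
  push_cast at h0 h1 h3
  simp only [one_div] at h3
  linarith

theorem sq_tail (u : ℕ) (hu : 1 ≤ u) : ∑' d : ℕ, (1 : ℝ) / ((d + (u + 1) : ℕ) : ℝ) ^ 2 ≤ 1 / u := by
  have h1 : ∀ n : ℕ, ∑ d ∈ Finset.range n, (1 : ℝ) / ((d + (u + 1) : ℕ) : ℝ) ^ 2 ≤ 1 / u - 1 / ((n + u : ℕ) : ℝ) := by
    intro n
    have hu0 : (0 : ℝ) < u := by exact_mod_cast hu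
    induction n with
    | zero => simp
    | succ n ih =>
      rw [Finset.sum_range_succ]
      have h2 : (1 : ℝ) / ((n + (u + 1) : ℕ) : ℝ) ^ 2 ≤ 1 / ((n + u : ℕ) : ℝ) - 1 / ((n + 1 + u : ℕ) : ℝ) := by
        push_cast
        have h3 : (0 : ℝ) < n + u := by positivity
        have h4 : (0 : ℝ) < n + 1 + u := by positivity
        have h5 : (n : ℝ) + (u + 1) = n + 1 + u := by ring
        rw [h5, div_sub_div _ _ h3.ne' h4.ne', div_le_div_iff₀ (by positivity) (by positivity)]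
        nlinarith
      linarith
  refine Real.tsum_le_of_sum_range_le (fun d => by positivity) fun n => (h1 n).trans ?_
  have : (0 : ℝ) ≤ 1 / ((n + u : ℕ) : ℝ) := by positivity
  linarith

theorem kp_head {u : ℕ} (hu : 1 ≤ u) : |(∑ d ∈ Finset.Icc 1 u, (ArithmeticFunction.moebius d : ℝ) / (d : ℝ) ^ 2) - kp| ≤ 1 / u := by
  have h0 : kp = (∑ d ∈ Finset.range (u + 1), (ArithmeticFunction.moebius d : ℝ) / (d : ℝ) ^ 2) +
      ∑' d : ℕ, (ArithmeticFunction.moebius (d + (u + 1)) : ℝ) / ((d + (u + 1) : ℕ) : ℝ) ^ 2 :=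
    (kp_summable.sum_add_tsum_nat_add (u + 1)).symm
  have h1 : ∑ d ∈ Finset.range (u + 1), (ArithmeticFunction.moebius d : ℝ) / (d : ℝ) ^ 2 =
      ∑ d ∈ Finset.Icc 1 u, (ArithmeticFunction.moebius d : ℝ) / (d : ℝ) ^ 2 := by
    symm
    apply Finset.sum_subset
    · intro d hd
      rw [Finset.mem_Icc] at hd
      rw [Finset.mem_range]
      omega
    · intro d hd hd2
      rw [Finset.mem_range] at hd
      rw [Finset.mem_Icc] at hd2
      have : d = 0 := by omega
      subst this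
      simp
  have hs2 : Summable (fun d : ℕ => (1 : ℝ) / ((d + (u + 1) : ℕ) : ℝ) ^ 2) :=
    (summable_nat_add_iff (u + 1)).mpr (Real.summable_one_div_nat_pow.mpr one_lt_two)
  have h2 : |∑' d : ℕ, (ArithmeticFunction.moebius (d + (u + 1)) : ℝ) / ((d + (u + 1) : ℕ) : ℝ) ^ 2| ≤
      ∑' d : ℕ, (1 : ℝ) / ((d + (u + 1) : ℕ) : ℝ) ^ 2 := by
    rw [← Real.norm_eq_abs]
    refine tsum_of_norm_bounded hs2.hasSum fun d => ?_
    rw [Real.norm_eq_abs]
    exact kp_term (d + (u + 1))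
  rw [h0, h1, abs_sub_comm, add_sub_cancel_left]
  exact h2.trans (sq_tail u hu)

/-- constant for the weighted tail -/
noncomputable def CD : ℝ := ∑' d : ℕ, (1 + Real.log d) / (d : ℝ) ^ 2

theorem CD_summable : Summable (fun d : ℕ => (1 + Real.log d) / (d : ℝ) ^ 2) := by
  have h1 : Summable (fun d : ℕ => 3 * (1 / (d : ℝ) ^ ((3 : ℝ) / 2))) :=
    (Real.summable_one_div_nat_rpow.mpr (by norm_num)).mul_left 3
  refine Summable.of_nonneg_of_le (fun d => ?_) (fun d => ?_) h1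
  · have := Real.log_natCast_nonneg d
    positivity
  · rcases Nat.eq_zero_or_pos d with h | h
    · subst h
      simp
    · have hd : (0 : ℝ) < d := by exact_mod_cast h
      have hd1 : (1 : ℝ) ≤ d := by exact_mod_cast h
      have h2 := Real.log_le_rpow_div hd.le (show (0 : ℝ) < 1 / 2 by norm_num)
      have h3 : (1 : ℝ) ≤ (d : ℝ) ^ ((1 : ℝ) / 2) := Real.one_le_rpow hd1 (by norm_num)
      have h4 : (d : ℝ) ^ 2 = (d : ℝ) ^ ((3 : ℝ) / 2) * (d : ℝ) ^ ((1 : ℝ) / 2) := by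
        rw [← Real.rpow_add hd, ← Real.rpow_natCast]
        norm_num
      rw [h4, div_le_iff₀ (by positivity)]
      have h5 : 0 < (d : ℝ) ^ ((3 : ℝ) / 2) := by positivity
      have e : 3 * (1 / (d : ℝ) ^ ((3 : ℝ) / 2)) * ((d : ℝ) ^ ((3 : ℝ) / 2) * (d : ℝ) ^ ((1 : ℝ) / 2)) =
          3 * (d : ℝ) ^ ((1 : ℝ) / 2) := by field_simp
      rw [e]
      have h6 : (d : ℝ) ^ ((1 : ℝ) / 2) / (1 / 2) = 2 * (d : ℝ) ^ ((1 : ℝ) / 2) := by ring
      rw [h6] at h2
      linarith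

theorem CD_nonneg : 0 ≤ CD := tsum_nonneg fun d => by
  have := Real.log_natCast_nonneg d
  positivity

/-- asymptotics of the coprime sums -/
theorem DD_asym {u v : ℕ} (hu : 1 ≤ u) (huv : u ≤ v) :
    |DD u v - kp * (Real.log u * Real.log v)| ≤ (2 * CD + 1) * (1 + Real.log v) := by
  have hu0 : (0 : ℝ) < u := by exact_mod_cast hu
  have hu1 : (1 : ℝ) ≤ u := by exact_mod_cast hu
  have hv0 : (0 : ℝ) < v := by exact_mod_cast (lt_of_lt_of_le hu huv)
  have hlu : 0 ≤ Real.log u := Real.log_natCast_nonneg u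
  have hlv : 0 ≤ Real.log v := Real.log_natCast_nonneg v
  have hle : Real.log u ≤ Real.log v := Real.log_le_log hu0 (by exact_mod_cast huv)
  have h1 : DD u v - kp * (Real.log u * Real.log v) =
      (∑ d ∈ Finset.Icc 1 u, (ArithmeticFunction.moebius d : ℝ) / (d : ℝ) ^ 2 * (HS (u / d) * HS (v / d) - Real.log u * Real.log v)) +
      ((∑ d ∈ Finset.Icc 1 u, (ArithmeticFunction.moebius d : ℝ) / (d : ℝ) ^ 2) - kp) * (Real.log u * Real.log v) := by
    rw [DD_eq]
    simp only [mul_sub, Finset.sum_sub_distrib]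
    rw [← Finset.sum_mul]
    ring
  rw [h1]
  refine (abs_add_le _ _).trans ?_
  have h2 : |∑ d ∈ Finset.Icc 1 u, (ArithmeticFunction.moebius d : ℝ) / (d : ℝ) ^ 2 * (HS (u / d) * HS (v / d) - Real.log u * Real.log v)| ≤
      2 * CD * (1 + Real.log v) := by
    refine (Finset.abs_sum_le_sum_abs _ _).trans ?_
    have h3 : ∀ d ∈ Finset.Icc 1 u, |(ArithmeticFunction.moebius d : ℝ) / (d : ℝ) ^ 2 * (HS (u / d) * HS (v / d) - Real.log u * Real.log v)| ≤
        (1 + Real.log d) / (d : ℝ) ^ 2 * (2 * (1 + Real.log v)) := by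
      intro d hd
      obtain ⟨hd1, hd2⟩ := Finset.mem_Icc.1 hd
      have hd0 : (0 : ℝ) < d := by exact_mod_cast hd1
      have hld : 0 ≤ Real.log d := Real.log_natCast_nonneg d
      obtain ⟨a1, a2⟩ := HS_div hd1 hd2
      obtain ⟨b1, b2⟩ := HS_div hd1 (hd2.trans huv)
      have hldu : Real.log d ≤ Real.log u := Real.log_le_log hd0 (by exact_mod_cast hd2)
      have hA : 0 ≤ HS (u / d) := HS_nonneg _
      have hB : 0 ≤ HS (v / d) := HS_nonneg _
      have h4 : |HS (u / d) * HS (v / d) - Real.log u * Real.log v| ≤ (1 + Real.log d) * (2 * (1 + Real.log v)) := by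
        have e : HS (u / d) * HS (v / d) - Real.log u * Real.log v =
            HS (u / d) * (HS (v / d) - Real.log v) + (HS (u / d) - Real.log u) * Real.log v := by ring
        rw [e]
        refine (abs_add_le _ _).trans ?_
        rw [abs_mul, abs_mul, abs_of_nonneg hA, abs_of_nonneg hlv]
        have c1 : |HS (v / d) - Real.log v| ≤ 1 + Real.log d := by
          rw [abs_le]; constructor <;> linarith
        have c2 : |HS (u / d) - Real.log u| ≤ 1 + Real.log d := by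
          rw [abs_le]; constructor <;> linarith
        have c3 : HS (u / d) ≤ 1 + Real.log v := by linarith
        have c4 : HS (u / d) * |HS (v / d) - Real.log v| ≤ (1 + Real.log v) * (1 + Real.log d) :=
          mul_le_mul c3 c1 (abs_nonneg _) (by linarith)
        have c5 : |HS (u / d) - Real.log u| * Real.log v ≤ (1 + Real.log d) * Real.log v :=
          mul_le_mul_of_nonneg_right c2 hlv
        nlinarith
      rw [abs_mul]
      have h5 := kp_term d
      calc |(ArithmeticFunction.moebius d : ℝ) / (d : ℝ) ^ 2| * |HS (u / d) * HS (v / d) - Real.log u * Real.log v|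
          ≤ (1 / (d : ℝ) ^ 2) * ((1 + Real.log d) * (2 * (1 + Real.log v))) :=
            mul_le_mul h5 h4 (abs_nonneg _) (by positivity)
        _ = _ := by ring
    refine (Finset.sum_le_sum h3).trans ?_
    rw [← Finset.sum_mul]
    have h6 : ∑ d ∈ Finset.Icc 1 u, (1 + Real.log d) / (d : ℝ) ^ 2 ≤ CD :=
      CD_summable.sum_le_tsum _ (fun d _ => by
        have := Real.log_natCast_nonneg d
        positivity)
    nlinarith
  have h3 : |((∑ d ∈ Finset.Icc 1 u, (ArithmeticFunction.moebius d : ℝ) / (d : ℝ) ^ 2) - kp) * (Real.log u * Real.log v)| ≤ 1 + Real.log v := by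
    rw [abs_mul, abs_of_nonneg (by positivity : 0 ≤ Real.log u * Real.log v)]
    have h4 := kp_head hu
    have h5 : Real.log u ≤ u := (Real.log_le_sub_one_of_pos hu0).trans (by linarith)
    calc |(∑ d ∈ Finset.Icc 1 u, (ArithmeticFunction.moebius d : ℝ) / (d : ℝ) ^ 2) - kp| * (Real.log u * Real.log v)
        ≤ 1 / u * (u * Real.log v) :=
          mul_le_mul h4 (mul_le_mul_of_nonneg_right h5 hlv) (by positivity) (by positivity)
      _ = Real.log v := by field_simp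
      _ ≤ 1 + Real.log v := by linarith
  linarith

/-- lower bound for the sum with a prime -/
theorem AP_lower {N p : ℕ} (hp : p.Prime) (hpN : p ≤ N) :
    kp * ((Real.log N - Real.log p) * Real.log N) - (2 * CD + 2) * (1 + Real.log N) - 1 / p * (1 + Real.log N) ^ 2 ≤ AP N p := by
  classical
  have hp0 : (0 : ℝ) < p := by exact_mod_cast hp.pos
  have hN1 : 1 ≤ N := hp.one_lt.le.trans hpN
  have hN0 : (0 : ℝ) < N := by exact_mod_cast hN1
  have hlN : 0 ≤ Real.log N := Real.log_natCast_nonneg N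
  have hNp : 1 ≤ N / p := Nat.div_pos hpN hp.pos
  -- compare with DD
  have h1 : DD (N / p) N - 1 / p * HS N ^ 2 ≤ AP N p := by
    unfold AP DD
    have e1 : ∑ x ∈ (Finset.Icc 1 (N / p) ×ˢ Finset.Icc 1 N).filter (fun x => Nat.Coprime x.1 x.2), 1 / ((x.1 : ℝ) * x.2) ≤
        (∑ x ∈ (Finset.Icc 1 (N / p) ×ˢ Finset.Icc 1 N).filter (fun x => Nat.Coprime (p * x.1) x.2), 1 / ((x.1 : ℝ) * x.2)) +
        ∑ x ∈ (Finset.Icc 1 (N / p) ×ˢ ((Finset.Icc 1 N).filter (fun m => p ∣ m))), 1 / ((x.1 : ℝ) * x.2) := by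
      have hun : ∀ (A B : Finset (ℕ × ℕ)), ∑ x ∈ A ∪ B, 1 / ((x.1 : ℝ) * x.2) ≤
          (∑ x ∈ A, 1 / ((x.1 : ℝ) * x.2)) + ∑ x ∈ B, 1 / ((x.1 : ℝ) * x.2) := by
        intro A B
        have h := Finset.sum_union_inter (s₁ := A) (s₂ := B) (f := fun x : ℕ × ℕ => 1 / ((x.1 : ℝ) * x.2))
        have h0 : 0 ≤ ∑ x ∈ A ∩ B, 1 / ((x.1 : ℝ) * x.2) := Finset.sum_nonneg fun x _ => by positivity
        linarith
      refine le_trans (Finset.sum_le_sum_of_subset_of_nonneg ?_ (fun x _ _ => by positivity)) (hun _ _)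
      intro x hx
      obtain ⟨g1, g2⟩ := Finset.mem_filter.1 hx
      obtain ⟨g3, g4⟩ := Finset.mem_product.1 g1
      rw [Finset.mem_union]
      by_cases h : p ∣ x.2
      · right
        exact Finset.mem_product.2 ⟨g3, Finset.mem_filter.2 ⟨g4, h⟩⟩
      · left
        refine Finset.mem_filter.2 ⟨g1, ?_⟩
        exact Nat.Coprime.mul_left ((Nat.Prime.coprime_iff_not_dvd hp).2 h) g2
    have e2 : ∑ x ∈ (Finset.Icc 1 (N / p) ×ˢ ((Finset.Icc 1 N).filter (fun m => p ∣ m))), 1 / ((x.1 : ℝ) * x.2) =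
        HS (N / p) * (1 / p * HS (N / p)) := by
      rw [Finset.sum_product, ← mult_sum N p hp.one_lt.le]
      unfold HS
      rw [Finset.sum_mul_sum]
      refine Finset.sum_congr rfl fun m _ => Finset.sum_congr rfl fun n _ => ?_
      rw [one_div_mul_one_div]
    have e3 : HS (N / p) ≤ HS N := by
      unfold HS
      refine Finset.sum_le_sum_of_subset_of_nonneg ?_ (fun x _ _ => by positivity)
      exact Finset.Icc_subset_Icc_right (Nat.div_le_self N p)
    have e4 : HS (N / p) * (1 / p * HS (N / p)) ≤ 1 / p * HS N ^ 2 := by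
      have := HS_nonneg (N / p)
      have h5 : HS (N / p) * HS (N / p) ≤ HS N * HS N := mul_self_le_mul_self this e3
      have h6 : (0 : ℝ) ≤ 1 / p := by positivity
      calc HS (N / p) * (1 / p * HS (N / p)) = 1 / p * (HS (N / p) * HS (N / p)) := by ring
        _ ≤ 1 / p * (HS N * HS N) := mul_le_mul_of_nonneg_left h5 h6
        _ = _ := by ring
    rw [e2] at e1
    linarith
  have h2 := (abs_le.1 (DD_asym hNp (Nat.div_le_self N p))).1
  have h3 : HS N ≤ 1 + Real.log N := by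
    rw [HS_eq]
    exact harmonic_le_one_add_log N
  have h4 : 1 / (p : ℝ) * HS N ^ 2 ≤ 1 / p * (1 + Real.log N) ^ 2 := by
    have := HS_nonneg N
    have h5 : HS N ^ 2 ≤ (1 + Real.log N) ^ 2 := pow_le_pow_left₀ this h3 2
    exact mul_le_mul_of_nonneg_left h5 (by positivity)
  have h5 : Real.log N - Real.log p - 1 ≤ Real.log ((N / p : ℕ) : ℝ) := by
    have c1 : (N : ℝ) / p ≤ 2 * ((N / p : ℕ) : ℝ) := by
      rw [div_le_iff₀ hp0]
      have c2 : N < (N / p + 1) * p := by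
        have := Nat.lt_div_mul_add hp.pos (a := N)
        nlinarith
      have c3 : (N : ℝ) < ((N / p : ℕ) + 1) * p := by exact_mod_cast c2
      have c4 : (1 : ℝ) ≤ ((N / p : ℕ) : ℝ) := by exact_mod_cast hNp
      nlinarith
    have c5 : (0 : ℝ) < ((N / p : ℕ) : ℝ) := by exact_mod_cast hNp
    have c6 := Real.log_le_log (by positivity) c1
    rw [Real.log_div hN0.ne' hp0.ne', Real.log_mul (by norm_num) c5.ne'] at c6
    have c7 : Real.log 2 ≤ 1 := by
      have := Real.log_two_lt_d9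
      linarith
    linarith
  have hkp := kp_pos
  have hkp1 : kp ≤ 1 := by
    have h6 := kp_head (u := 1) le_rfl
    rw [Finset.Icc_self, Finset.sum_singleton] at h6
    simp at h6
    have h7 := hkp
    have h8 := (abs_le.1 h6).1
    by_contra hcon
    -- use the alternative bound: kp ≤ 1 - 1/4 + tail
    have h9 := kp_head (u := 3) (by norm_num)
    have h10 : (∑ d ∈ Finset.Icc 1 3, (ArithmeticFunction.moebius d : ℝ) / (d : ℝ) ^ 2) = 1 - 1 / 4 - 1 / 9 := by
      have : Finset.Icc 1 3 = {1, 2, 3} := rfl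
      rw [this, Finset.sum_insert (by decide), Finset.sum_insert (by decide), Finset.sum_singleton,
        ArithmeticFunction.moebius_apply_one, ArithmeticFunction.moebius_apply_prime Nat.prime_two,
        ArithmeticFunction.moebius_apply_prime Nat.prime_three]
      norm_num
    rw [h10] at h9
    have h11 := (abs_le.1 h9).1
    push_cast at h11
    linarith
  have h6 : kp * ((Real.log N - Real.log p) * Real.log N) - (1 + Real.log N) ≤
      kp * (Real.log ((N / p : ℕ) : ℝ) * Real.log N) := by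
    have c1 : kp * ((Real.log N - Real.log p - 1) * Real.log N) ≤ kp * (Real.log ((N / p : ℕ) : ℝ) * Real.log N) :=
      mul_le_mul_of_nonneg_left (mul_le_mul_of_nonneg_right h5 hlN) hkp.le
    have c2 : kp * ((Real.log N - Real.log p) * Real.log N) - kp * Real.log N =
        kp * ((Real.log N - Real.log p - 1) * Real.log N) := by ring
    nlinarith
  linarith

theorem AN_upper {N : ℕ} (hN : 1 ≤ N) : AN N ≤ kp * Real.log N ^ 2 + (2 * CD + 1) * (1 + Real.log N) := by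
  have h := (abs_le.1 (DD_asym hN le_rfl)).2
  rw [AN_eq]
  nlinarith

theorem one_le_AN {N : ℕ} (hN : 1 ≤ N) : 1 ≤ AN N := by
  unfold AN
  have h1 : ((1, 1) : ℕ × ℕ) ∈ CP N := mem_CP.2 ⟨⟨le_rfl, hN⟩, ⟨le_rfl, hN⟩, Nat.coprime_one_left 1⟩
  have h2 := Finset.single_le_sum (f := fun x : ℕ × ℕ => 1 / ((x.1 : ℝ) * x.2)) (fun x _ => by positivity) h1
  simpa using h2

end Pool.Agent.Helper69.SM
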