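import Pool.Agent.Helper69.SM.PSum

/-!
# SM-LO: lower bound for the prime side
-/

open MeasureTheory Set Filter Topology
open Pool.Agent.Helper57.Zeta Pool.Agent.Helper57.PC Pool.Agent.Helper57.LH Pool.Agent.Helper57.LS Pool.Agent.Helper78.SG
open Pool.Agent.Helper4.SH

namespace Pool.Agent.Helper69.SM

theorem SB_le {c : ℝ} (hc : 0 < c) (y : ℝ) : SB c y ≤ c := by
  unfold SB
  have := Real.sinc_le_one (Real.pi * c * y)
  nlinarith

theorem SB_abs {c : ℝ} (hc : 0 < c) (y : ℝ) : |SB c y| ≤ c := by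
  unfold SB
  rw [abs_mul, abs_of_pos hc]
  have := Real.abs_sinc_le_one (Real.pi * c * y)
  nlinarith

theorem SB_nonneg {c y : ℝ} (hc : 0 < c) (hc1 : c < 1) (hy : 0 ≤ y) (hy1 : y ≤ 1) : 0 ≤ SB c y := by
  unfold SB
  refine mul_nonneg hc.le ?_
  have h1 : 0 ≤ Real.pi * c * y := by positivity
  rcases h1.eq_or_lt with h | h
  · rw [← h, Real.sinc_zero]; norm_num
  · rw [Real.sinc_of_ne_zero h.ne']
    refine div_nonneg (Real.sin_nonneg_of_nonneg_of_le_pi h1 ?_) h1
    have h2 : c * y ≤ 1 := by nlinarith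
    have := Real.pi_pos
    nlinarith

theorem SB_ge {c y : ℝ} (hc : 0 < c) (hy : 0 ≤ y) : c - Real.pi ^ 2 * c ^ 3 / 6 * y ^ 2 ≤ SB c y := by
  unfold SB
  have h1 : 0 ≤ Real.pi * c * y := by positivity
  have h2 : 1 - (Real.pi * c * y) ^ 2 / 6 ≤ Real.sinc (Real.pi * c * y) := by
    rcases h1.eq_or_lt with h | h
    · rw [← h, Real.sinc_zero]; norm_num
    · rw [Real.sinc_of_ne_zero h.ne', le_div_iff₀ h]
      have := Real.sin_ge_sub_cube h1
      nlinarith
  calc c - Real.pi ^ 2 * c ^ 3 / 6 * y ^ 2 = c * (1 - (Real.pi * c * y) ^ 2 / 6) := by ring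
    _ ≤ _ := mul_le_mul_of_nonneg_left h2 hc.le

/-- the polynomial lower bound of `SB` -/
noncomputable def qq (c y : ℝ) : ℝ := c - Real.pi ^ 2 * c ^ 3 / 6 * y ^ 2

theorem qq_nonneg {c y : ℝ} (hc : 0 < c) (hc1 : c < 1) (hy : 0 ≤ y) (hy1 : y ≤ 1 / 2) : 0 ≤ qq c y := by
  unfold qq
  have hpi : Real.pi ^ 2 < 10 := by
    have := Real.pi_lt_d2
    have := Real.pi_pos
    nlinarith
  have h1 : y ^ 2 ≤ 1 / 4 := by nlinarith
  have h2 : c ^ 3 ≤ c := by nlinarith [sq_nonneg c]
  have h3 : Real.pi ^ 2 * c ^ 3 / 6 * y ^ 2 ≤ 10 * c / 6 * (1 / 4) := by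
    have : 0 ≤ c ^ 3 := by positivity
    apply mul_le_mul _ h1 (by positivity) (by positivity)
    nlinarith [sq_nonneg Real.pi]
  nlinarith

theorem qq_le {c y : ℝ} (hc : 0 < c) : qq c y ≤ c := by
  unfold qq
  have : 0 ≤ Real.pi ^ 2 * c ^ 3 / 6 * y ^ 2 := by positivity
  linarith

/-- main sum over primes -/
theorem main_sum {c L : ℝ} (hc : 0 < c) (hc1 : c < 1) (hL : 0 < L) {N : ℕ} (hN : 1 ≤ N) (hNL : Real.log N ≤ L / 2) :
    c * Real.log N ^ 2 / 2 - Real.pi ^ 2 * c ^ 3 / (72 * L ^ 2) * Real.log N ^ 4 - (CMe + CNP) * (c * Real.log N) ≤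
      ∑ p ∈ (Finset.Icc 1 N).filter Nat.Prime, Real.log p / p * (qq c (Real.log p / L) * (Real.log N - Real.log p)) := by
  set l := Real.log N with hl
  have hl0 : 0 ≤ l := Real.log_natCast_nonneg N
  have hN0 : (0:ℝ) < N := by exact_mod_cast hN
  have hNX : NX l = N := by
    unfold NX
    rw [hl, Real.exp_log hN0, Nat.floor_natCast]
  set β := Real.pi ^ 2 * c ^ 3 / (6 * L ^ 2) with hβ
  have hβ0 : 0 ≤ β := by positivity
  set P : ℝ → ℝ := fun u => (c - β * u ^ 2) * (l - u) with hP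
  set P' : ℝ → ℝ := fun u => (-(2 * β * u)) * (l - u) + (c - β * u ^ 2) * (-1) with hP'
  have hd : ∀ u, HasDerivAt P (P' u) u := by
    intro u
    have h1 : HasDerivAt (fun u : ℝ => c - β * u ^ 2) (-(2 * β * u)) u := by
      have := ((hasDerivAt_pow 2 u).const_mul β).const_sub c
      refine this.congr_deriv ?_
      push_cast
      ring
    have h2 : HasDerivAt (fun u : ℝ => l - u) (-1) u := by
      simpa using (hasDerivAt_id u).const_sub l
    exact h1.mul h2
  have hq : ∀ u ∈ Icc 0 l, 0 ≤ c - β * u ^ 2 ∧ c - β * u ^ 2 ≤ c := by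
    intro u hu
    have h1 := qq_nonneg hc hc1 (y := u / L) (div_nonneg hu.1 hL.le) (by
      rw [div_le_iff₀ hL]; linarith [hu.2])
    have h2 : qq c (u / L) = c - β * u ^ 2 := by
      unfold qq
      rw [hβ]
      field_simp
    rw [h2] at h1
    exact ⟨h1, by nlinarith [sq_nonneg u]⟩
  have hneg : ∀ u ∈ Icc 0 l, P' u ≤ 0 := by
    intro u hu
    have h1 := (hq u hu).1
    have h2 : 0 ≤ 2 * β * u * (l - u) := by
      have := hu.1
      have : 0 ≤ l - u := by linarith [hu.2]
      positivity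
    simp only [hP']
    nlinarith
  have h := low_sum hl0 hd (by simp only [hP']; fun_prop) hneg (by simp only [hP]; ring)
  rw [hNX] at h
  have hI : ∫ u in (0:ℝ)..l, P u = c * l ^ 2 / 2 - β / 12 * l ^ 4 := by
    have h1 : ∀ u : ℝ, HasDerivAt (fun u => c * l * u - c / 2 * u ^ 2 - β * l / 3 * u ^ 3 + β / 4 * u ^ 4) (P u) u := by
      intro u
      have a1 := (hasDerivAt_id u).const_mul (c * l)
      have a2 := (hasDerivAt_pow 2 u).const_mul (c / 2)
      have a3 := (hasDerivAt_pow 3 u).const_mul (β * l / 3)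
      have a4 := (hasDerivAt_pow 4 u).const_mul (β / 4)
      have a5 := ((a1.sub a2).sub a3).add a4
      refine a5.congr_deriv ?_
      simp only [hP]
      push_cast
      ring
    rw [intervalIntegral.integral_eq_sub_of_hasDerivAt (fun u _ => h1 u)
      ((by simp only [hP]; fun_prop : Continuous P).intervalIntegrable 0 l)]
    ring
  have hP0 : P 0 = c * l := by simp only [hP]; ring
  rw [hI, hP0] at h
  -- split off the non-primes
  have hsplit : ∑ n ∈ Finset.range (N + 1), ArithmeticFunction.vonMangoldt n / n * P (Real.log n) ≤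
      (∑ p ∈ (Finset.Icc 1 N).filter Nat.Prime, Real.log p / p * (qq c (Real.log p / L) * (l - Real.log p))) +
      c * l * CNP := by
    have e1 : ∑ n ∈ Finset.range (N + 1), ArithmeticFunction.vonMangoldt n / n * P (Real.log n) =
        ∑ n ∈ Finset.Icc 1 N, ArithmeticFunction.vonMangoldt n / n * P (Real.log n) := by
      symm
      apply Finset.sum_subset
      · intro n hn
        rw [Finset.mem_Icc] at hn
        rw [Finset.mem_range]
        omega
      · intro n hn hn2
        rw [Finset.mem_range] at hn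
        rw [Finset.mem_Icc] at hn2
        have : n = 0 := by omega
        subst this
        simp
    have e2 : ∀ n ∈ Finset.Icc 1 N, ArithmeticFunction.vonMangoldt n / n * P (Real.log n) ≤
        (if n.Prime then Real.log n / n * (qq c (Real.log n / L) * (l - Real.log n)) else 0) + c * l * (aN n / n) := by
      intro n hn
      obtain ⟨hn1, hn2⟩ := Finset.mem_Icc.1 hn
      have hn0 : (0:ℝ) < n := by exact_mod_cast hn1
      have hlog : Real.log n ∈ Icc 0 l := ⟨Real.log_natCast_nonneg n, Real.log_le_log hn0 (by exact_mod_cast hn2)⟩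
      have hqn := hq _ hlog
      by_cases hp : n.Prime
      · rw [if_pos hp, ArithmeticFunction.vonMangoldt_apply_prime hp]
        have h2 : qq c (Real.log n / L) = c - β * Real.log n ^ 2 := by
          unfold qq
          rw [hβ]
          field_simp
        rw [h2]
        have h3 : 0 ≤ c * l * (aN n / n) := by
          have := aN_nonneg n
          positivity
        simp only [hP]
        linarith
      · rw [if_neg hp, zero_add]
        have h2 : aN n = ArithmeticFunction.vonMangoldt n := by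
          unfold aN
          rw [if_neg hp]
        rw [h2, mul_comm]
        refine mul_le_mul_of_nonneg_right ?_ (div_nonneg ArithmeticFunction.vonMangoldt_nonneg hn0.le)
        simp only [hP]
        have h3 : 0 ≤ l - Real.log n := by linarith [hlog.2]
        have h4 : l - Real.log n ≤ l := by linarith [hlog.1]
        exact mul_le_mul hqn.2 h4 h3 hc.le
    rw [e1]
    refine (Finset.sum_le_sum e2).trans ?_
    rw [Finset.sum_add_distrib, ← Finset.mul_sum, Finset.sum_filter]
    have h5 : ∑ n ∈ Finset.Icc 1 N, aN n / n ≤ CNP := by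
      refine le_trans (Finset.sum_le_sum_of_subset_of_nonneg (t := Finset.range (N + 1)) ?_ ?_) (nonprime_sum N)
      · intro n hn
        rw [Finset.mem_Icc] at hn
        rw [Finset.mem_range]
        omega
      · intro n _ _
        exact div_nonneg (aN_nonneg n) (by positivity)
    have h6 : c * l * ∑ n ∈ Finset.Icc 1 N, aN n / n ≤ c * l * CNP :=
      mul_le_mul_of_nonneg_left h5 (by positivity)
    linarith
  have hb : β / 12 = Real.pi ^ 2 * c ^ 3 / (72 * L ^ 2) := by
    rw [hβ]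
    field_simp
    norm_num
  rw [hb] at h
  linarith

theorem kp_le_one : kp ≤ 1 := by
  by_contra hcon
  have h9 := kp_head (u := 3) (by norm_num)
  have h10 : (∑ d ∈ Finset.Icc 1 3, (ArithmeticFunction.moebius d : ℝ) / (d : ℝ) ^ 2) = 1 - 1 / 4 - 1 / 9 := by
    have : Finset.Icc 1 3 = {1, 2, 3} := rfl
    rw [this, Finset.sum_insert (by decide), Finset.sum_insert (by decide), Finset.sum_singleton,
      ArithmeticFunction.moebius_apply_one, ArithmeticFunction.moebius_apply_prime Nat.prime_two,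
      ArithmeticFunction.moebius_apply_prime Nat.prime_three]
    norm_num
  rw [h10] at h9
  have h11 := (abs_le.1 h9).1
  push_cast at h11
  linarith

/-- constant in the lower bound -/
noncomputable def KB : ℝ := 4 * (CMe + CNP) + 8 * (2 * CD + 2) * (1 + CMe) + 16 * CD + 8 * CT

theorem KB_nonneg : 0 ≤ KB := by
  unfold KB
  have := CMe_pos
  have := CNP_nonneg
  have := CD_nonneg
  have := CT_nonneg
  positivity

theorem AP_nonneg (N p : ℕ) : 0 ≤ AP N p := Finset.sum_nonneg fun x _ => by positivity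

theorem BN_ge {c T : ℝ} (hc : 0 < c) (hc1 : c < 1) {N : ℕ} (hN : 1 ≤ N) (hL : 1 ≤ Real.log T)
    (hNL : Real.log N ≤ Real.log T / 2) :
    2 * kp * c * (Real.log N ^ 3 / Real.log T) * (1 - Real.pi ^ 2 * c ^ 2 / 36 * (Real.log N / Real.log T) ^ 2) -
      KB * Real.log T ≤ BN c T N := by
  set L := Real.log T with hLdef
  set l := Real.log N with hl
  have hL0 : 0 < L := by linarith
  have hl0 : 0 ≤ l := Real.log_natCast_nonneg N
  have hN0 : (0:ℝ) < N := by exact_mod_cast hN
  have hlL : l ≤ L := by linarith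
  have hHS : HS N ≤ 1 + l := by
    rw [HS_eq]
    exact harmonic_le_one_add_log N
  have hHS0 := HS_nonneg N
  have hHS2 : HS N ^ 2 ≤ (1 + l) ^ 2 := pow_le_pow_left₀ hHS0 hHS 2
  have hkp := kp_pos
  have hkp1 := kp_le_one
  -- termwise bound
  have hterm : ∀ k ∈ Finset.Icc 1 (N ^ 2),
      (if k ∈ (Finset.Icc 1 N).filter Nat.Prime then 4 / L * (Real.log k / k * (qq c (Real.log k / L) * AP N k)) else 0) -
        2 / L * (c * HS N ^ 2) * (aN k * (k.divisors.card : ℝ) / k) ≤
      -(pk c T k * (lam k / Real.sqrt k * EN N k)) := by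
    intro k hk
    obtain ⟨hk1, hk2⟩ := Finset.mem_Icc.1 hk
    have hk0 : (0:ℝ) < k := by exact_mod_cast hk1
    have hsk : 0 < Real.sqrt k := Real.sqrt_pos.2 hk0
    have hy0 : 0 ≤ Real.log k / L := div_nonneg (Real.log_natCast_nonneg k) hL0.le
    have hy1 : Real.log k / L ≤ 1 := by
      rw [div_le_one hL0]
      have h1 : Real.log k ≤ Real.log ((N ^ 2 : ℕ) : ℝ) := Real.log_le_log hk0 (by exact_mod_cast hk2)
      rw [Nat.cast_pow, Real.log_pow] at h1
      push_cast at h1
      linarith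
    have hSB0 := SB_nonneg hc hc1 hy0 hy1
    have hE0 := EN_nonneg N k
    have e1 : -(pk c T k * (lam k / Real.sqrt k * EN N k)) =
        -(lam k) * (2 / L * (ArithmeticFunction.vonMangoldt k / k) * (SB c (Real.log k / L) * EN N k)) := by
      unfold pk
      rw [← hLdef]
      have h2 : (k:ℝ) = Real.sqrt k * Real.sqrt k := (Real.mul_self_sqrt hk0.le).symm
      field_simp
      rw [Real.sq_sqrt hk0.le]
      ring
    rw [e1]
    by_cases hp : k.Prime
    · have ha : aN k = 0 := by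
        unfold aN
        rw [if_pos hp]
      rw [lam_prime hp, ha, ArithmeticFunction.vonMangoldt_apply_prime hp]
      simp only [zero_mul, zero_div, mul_zero, sub_zero, neg_neg, one_mul]
      by_cases hkN : k ≤ N
      · have hmem : k ∈ (Finset.Icc 1 N).filter Nat.Prime := Finset.mem_filter.2 ⟨Finset.mem_Icc.2 ⟨hk1, hkN⟩, hp⟩
        rw [if_pos hmem]
        have hy2 : Real.log k / L ≤ 1 / 2 := by
          rw [div_le_iff₀ hL0]
          have h1 : Real.log k ≤ l := Real.log_le_log hk0 (by exact_mod_cast hkN)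
          linarith
        have h2 := qq_nonneg hc hc1 hy0 hy2
        have h3 : qq c (Real.log k / L) ≤ SB c (Real.log k / L) := SB_ge hc hy0
        have h4 := EN_prime (N := N) hp
        have h5 := AP_nonneg N k
        have h6 : qq c (Real.log k / L) * (2 * AP N k) ≤ SB c (Real.log k / L) * EN N k :=
          mul_le_mul h3 h4 (by positivity) hSB0
        have h7 : 0 ≤ 2 / L * (Real.log k / k) := by
          have := Real.log_natCast_nonneg k
          positivity
        calc 4 / L * (Real.log k / k * (qq c (Real.log k / L) * AP N k)) =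
              2 / L * (Real.log k / k) * (qq c (Real.log k / L) * (2 * AP N k)) := by ring
          _ ≤ _ := mul_le_mul_of_nonneg_left h6 h7
      · rw [if_neg (fun h => hkN (Finset.mem_Icc.1 (Finset.mem_filter.1 h).1).2)]
        have := Real.log_natCast_nonneg k
        positivity
    · rw [if_neg (fun h => hp (Finset.mem_filter.1 h).2), zero_sub]
      have ha : aN k = ArithmeticFunction.vonMangoldt k := by
        unfold aN
        rw [if_neg hp]
      have hΛ : 0 ≤ ArithmeticFunction.vonMangoldt k := ArithmeticFunction.vonMangoldt_nonneg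
      have h1 := EN_le (N := N) (k := k) (by omega)
      have h2 := SB_le hc (Real.log k / L)
      have h3 : SB c (Real.log k / L) * EN N k ≤ c * ((k.divisors.card : ℝ) * HS N ^ 2) :=
        mul_le_mul h2 h1 hE0 hc.le
      have h4 : 0 ≤ 2 / L * (ArithmeticFunction.vonMangoldt k / k) := by positivity
      have h5 : 2 / L * (ArithmeticFunction.vonMangoldt k / k) * (SB c (Real.log k / L) * EN N k) ≤
          2 / L * (ArithmeticFunction.vonMangoldt k / k) * (c * ((k.divisors.card : ℝ) * HS N ^ 2)) :=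
        mul_le_mul_of_nonneg_left h3 h4
      have h6 : 0 ≤ 2 / L * (ArithmeticFunction.vonMangoldt k / k) * (SB c (Real.log k / L) * EN N k) := by positivity
      have h7 : -1 ≤ -(lam k) := by
        have := (abs_le.1 (lam_abs k).le).2
        linarith
      have h8 : -(2 / L * (ArithmeticFunction.vonMangoldt k / k) * (SB c (Real.log k / L) * EN N k)) ≤
          -(lam k) * (2 / L * (ArithmeticFunction.vonMangoldt k / k) * (SB c (Real.log k / L) * EN N k)) := by
        nlinarith
      refine le_trans ?_ h8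
      rw [ha]
      have h9 : 2 / L * (c * HS N ^ 2) * (ArithmeticFunction.vonMangoldt k * (k.divisors.card : ℝ) / k) =
          2 / L * (ArithmeticFunction.vonMangoldt k / k) * (c * ((k.divisors.card : ℝ) * HS N ^ 2)) := by ring
      rw [h9]
      linarith
  have hsum := Finset.sum_le_sum hterm
  rw [Finset.sum_sub_distrib, ← Finset.mul_sum, ← Finset.sum_filter] at hsum
  have hBN : ∑ k ∈ Finset.Icc 1 (N ^ 2), -(pk c T k * (lam k / Real.sqrt k * EN N k)) = BN c T N := by
    unfold BN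
    rw [Finset.sum_neg_distrib]
  rw [hBN] at hsum
  have hfil : (Finset.Icc 1 (N ^ 2)).filter (fun k => k ∈ (Finset.Icc 1 N).filter Nat.Prime) = (Finset.Icc 1 N).filter Nat.Prime := by
    ext k
    rw [Finset.mem_filter]
    constructor
    · exact fun h => h.2
    · intro h
      refine ⟨?_, h⟩
      obtain ⟨h1, h2⟩ := Finset.mem_Icc.1 (Finset.mem_filter.1 h).1
      exact Finset.mem_Icc.2 ⟨h1, h2.trans (by nlinarith)⟩
  rw [hfil] at hsum
  -- the non-prime part
  have hnp := np_sum (N ^ 2)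
  have hCT := CT_nonneg
  have hnp2 : 2 / L * (c * HS N ^ 2) * ∑ k ∈ Finset.Icc 1 (N ^ 2), aN k * (k.divisors.card : ℝ) / k ≤ 8 * CT * L := by
    have h1 : 2 / L * (c * HS N ^ 2) ≤ 8 * L := by
      have h2 : c * HS N ^ 2 ≤ 4 * L ^ 2 := by
        have h3 : (1 + l) ^ 2 ≤ (2 * L) ^ 2 := pow_le_pow_left₀ (by linarith) (by linarith) 2
        have h4 : c * HS N ^ 2 ≤ 1 * HS N ^ 2 := mul_le_mul_of_nonneg_right hc1.le (by positivity)
        nlinarith
      calc 2 / L * (c * HS N ^ 2) ≤ 2 / L * (4 * L ^ 2) := mul_le_mul_of_nonneg_left h2 (by positivity)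
        _ = 8 * L := by field_simp; ring
    calc 2 / L * (c * HS N ^ 2) * ∑ k ∈ Finset.Icc 1 (N ^ 2), aN k * (k.divisors.card : ℝ) / k
        ≤ 2 / L * (c * HS N ^ 2) * CT := mul_le_mul_of_nonneg_left hnp (by positivity)
      _ ≤ 8 * L * CT := mul_le_mul_of_nonneg_right h1 hCT
      _ = _ := by ring
  -- the prime part
  have hpt : ∀ p ∈ (Finset.Icc 1 N).filter Nat.Prime,
      4 / L * (kp * l) * (Real.log p / p * (qq c (Real.log p / L) * (l - Real.log p))) -
        4 / L * ((2 * CD + 2) * (1 + l)) * (Real.log p / p) - 4 / L * (1 + l) ^ 2 * (Real.log p / (p:ℝ) ^ 2) ≤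
      4 / L * (Real.log p / p * (qq c (Real.log p / L) * AP N p)) := by
    intro p hp
    obtain ⟨h1, h2⟩ := Finset.mem_filter.1 hp
    obtain ⟨h3, h4⟩ := Finset.mem_Icc.1 h1
    have hp0 : (0:ℝ) < p := by exact_mod_cast h3
    have hlp := Real.log_natCast_nonneg p
    have hlpl : Real.log p ≤ l := Real.log_le_log hp0 (by exact_mod_cast h4)
    have hy0 : 0 ≤ Real.log p / L := div_nonneg hlp hL0.le
    have hy2 : Real.log p / L ≤ 1 / 2 := by
      rw [div_le_iff₀ hL0]
      linarith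
    have hq0 := qq_nonneg hc hc1 hy0 hy2
    have hq1 : qq c (Real.log p / L) ≤ 1 := (qq_le hc).trans hc1.le
    have hA := AP_lower h2 h4
    rw [← hl] at hA
    have hCD := CD_nonneg
    have h5 : qq c (Real.log p / L) * (kp * ((l - Real.log p) * l)) - (2 * CD + 2) * (1 + l) - 1 / p * (1 + l) ^ 2 ≤
        qq c (Real.log p / L) * AP N p := by
      have h6 := mul_le_mul_of_nonneg_left hA hq0
      have h7 : qq c (Real.log p / L) * ((2 * CD + 2) * (1 + l)) ≤ 1 * ((2 * CD + 2) * (1 + l)) :=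
        mul_le_mul_of_nonneg_right hq1 (by positivity)
      have h8 : qq c (Real.log p / L) * (1 / p * (1 + l) ^ 2) ≤ 1 * (1 / p * (1 + l) ^ 2) :=
        mul_le_mul_of_nonneg_right hq1 (by positivity)
      have h9 : qq c (Real.log p / L) * (kp * ((l - Real.log p) * l) - (2 * CD + 2) * (1 + l) - 1 / p * (1 + l) ^ 2) =
          qq c (Real.log p / L) * (kp * ((l - Real.log p) * l)) - qq c (Real.log p / L) * ((2 * CD + 2) * (1 + l)) -
            qq c (Real.log p / L) * (1 / p * (1 + l) ^ 2) := by ring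
      rw [h9] at h6
      linarith
    have h10 : 0 ≤ 4 / L * (Real.log p / p) := by positivity
    have h11 := mul_le_mul_of_nonneg_left h5 h10
    calc 4 / L * (kp * l) * (Real.log p / p * (qq c (Real.log p / L) * (l - Real.log p))) -
        4 / L * ((2 * CD + 2) * (1 + l)) * (Real.log p / p) - 4 / L * (1 + l) ^ 2 * (Real.log p / (p:ℝ) ^ 2)
        = 4 / L * (Real.log p / p) * (qq c (Real.log p / L) * (kp * ((l - Real.log p) * l)) - (2 * CD + 2) * (1 + l) - 1 / p * (1 + l) ^ 2) := by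
          have e0 : Real.log p / (p:ℝ) ^ 2 = Real.log p / p * (1 / p) := by field_simp
          rw [e0]
          ring
      _ ≤ 4 / L * (Real.log p / p) * (qq c (Real.log p / L) * AP N p) := h11
      _ = _ := by ring
  have hpsum := Finset.sum_le_sum hpt
  rw [Finset.sum_sub_distrib, Finset.sum_sub_distrib, ← Finset.mul_sum, ← Finset.mul_sum, ← Finset.mul_sum] at hpsum
  have hms := main_sum hc hc1 hL0 hN hNL
  rw [← hl] at hms
  -- Σ log p / p
  have hCMe := CMe_pos
  have hCNP := CNP_nonneg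
  have hCD := CD_nonneg
  have hs1 : ∑ p ∈ (Finset.Icc 1 N).filter Nat.Prime, Real.log p / p ≤ L * (1 + CMe) := by
    have hNX : NX l = N := by
      unfold NX
      rw [hl, Real.exp_log hN0, Nat.floor_natCast]
    have h1 := (abs_le.1 (mertens hl0)).2
    rw [hNX] at h1
    have h2 : ∑ p ∈ (Finset.Icc 1 N).filter Nat.Prime, Real.log p / p ≤ ∑ n ∈ Finset.range (N + 1), ArithmeticFunction.vonMangoldt n / n := by
      refine le_trans (le_of_eq (Finset.sum_congr rfl fun p hp => ?_)) (Finset.sum_le_sum_of_subset_of_nonneg (s := (Finset.Icc 1 N).filter Nat.Prime) ?_ ?_)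
      · rw [ArithmeticFunction.vonMangoldt_apply_prime (Finset.mem_filter.1 hp).2]
      · intro n hn
        have := (Finset.mem_Icc.1 (Finset.mem_filter.1 hn).1).2
        rw [Finset.mem_range]
        omega
      · intro n _ _
        exact div_nonneg ArithmeticFunction.vonMangoldt_nonneg (by positivity)
    nlinarith
  have hs2 : ∑ p ∈ (Finset.Icc 1 N).filter Nat.Prime, Real.log p / (p:ℝ) ^ 2 ≤ CD := by
    refine le_trans (Finset.sum_le_sum fun p _ => ?_) (CD_summable.sum_le_tsum _ (fun d _ => by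
      have := Real.log_natCast_nonneg d
      positivity))
    exact div_le_div_of_nonneg_right (by linarith) (by positivity)
  have hs1n : 0 ≤ ∑ p ∈ (Finset.Icc 1 N).filter Nat.Prime, Real.log p / p := Finset.sum_nonneg fun p _ => by
    have := Real.log_natCast_nonneg p
    positivity
  have c1 : 4 / L * ((2 * CD + 2) * (1 + l)) * ∑ p ∈ (Finset.Icc 1 N).filter Nat.Prime, Real.log p / p ≤
      8 * (2 * CD + 2) * (1 + CMe) * L := by
    have h1 : 4 / L * ((2 * CD + 2) * (1 + l)) ≤ 8 * (2 * CD + 2) := by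
      have h2 : (2 * CD + 2) * (1 + l) ≤ (2 * CD + 2) * (2 * L) := mul_le_mul_of_nonneg_left (by linarith) (by positivity)
      calc 4 / L * ((2 * CD + 2) * (1 + l)) ≤ 4 / L * ((2 * CD + 2) * (2 * L)) := mul_le_mul_of_nonneg_left h2 (by positivity)
        _ = _ := by field_simp; ring
    calc 4 / L * ((2 * CD + 2) * (1 + l)) * ∑ p ∈ (Finset.Icc 1 N).filter Nat.Prime, Real.log p / p
        ≤ (8 * (2 * CD + 2)) * (L * (1 + CMe)) := mul_le_mul h1 hs1 hs1n (by positivity)
      _ = _ := by ring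
  have c2 : 4 / L * (1 + l) ^ 2 * ∑ p ∈ (Finset.Icc 1 N).filter Nat.Prime, Real.log p / (p:ℝ) ^ 2 ≤ 16 * CD * L := by
    have h1 : 4 / L * (1 + l) ^ 2 ≤ 16 * L := by
      have h3 : (1 + l) ^ 2 ≤ (2 * L) ^ 2 := pow_le_pow_left₀ (by linarith) (by linarith) 2
      calc 4 / L * (1 + l) ^ 2 ≤ 4 / L * (2 * L) ^ 2 := mul_le_mul_of_nonneg_left h3 (by positivity)
        _ = _ := by field_simp; ring
    calc 4 / L * (1 + l) ^ 2 * ∑ p ∈ (Finset.Icc 1 N).filter Nat.Prime, Real.log p / (p:ℝ) ^ 2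
        ≤ 4 / L * (1 + l) ^ 2 * CD := mul_le_mul_of_nonneg_left hs2 (by positivity)
      _ ≤ 16 * L * CD := mul_le_mul_of_nonneg_right h1 hCD
      _ = _ := by ring
  have c3 : 2 * kp * c * (l ^ 3 / L) * (1 - Real.pi ^ 2 * c ^ 2 / 36 * (l / L) ^ 2) - 4 * (CMe + CNP) * L ≤
      4 / L * (kp * l) * ∑ p ∈ (Finset.Icc 1 N).filter Nat.Prime, Real.log p / p * (qq c (Real.log p / L) * (l - Real.log p)) := by
    have h1 := mul_le_mul_of_nonneg_left hms (by positivity : 0 ≤ 4 / L * (kp * l))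
    have h2 : 4 / L * (kp * l) * (c * l ^ 2 / 2 - Real.pi ^ 2 * c ^ 3 / (72 * L ^ 2) * l ^ 4 - (CMe + CNP) * (c * l)) =
        2 * kp * c * (l ^ 3 / L) * (1 - Real.pi ^ 2 * c ^ 2 / 36 * (l / L) ^ 2) - 4 * (CMe + CNP) * (kp * c * (l ^ 2 / L)) := by
      field_simp
      ring
    rw [h2] at h1
    have h3 : kp * c * (l ^ 2 / L) ≤ L := by
      have h4 : l ^ 2 / L ≤ L := by
        rw [div_le_iff₀ hL0]
        nlinarith
      have h5 : kp * c ≤ 1 := by nlinarith
      have h6 : 0 ≤ l ^ 2 / L := by positivity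
      nlinarith
    have h7 : 4 * (CMe + CNP) * (kp * c * (l ^ 2 / L)) ≤ 4 * (CMe + CNP) * L :=
      mul_le_mul_of_nonneg_left h3 (by positivity)
    linarith
  have hKB : KB * L = 4 * (CMe + CNP) * L + 8 * (2 * CD + 2) * (1 + CMe) * L + 16 * CD * L + 8 * CT * L := by
    unfold KB; ring
  rw [hKB]
  linarith

/-- the number theoretic inequality -/
theorem BN_gt {a c : ℝ} (ha : 0 < a) (ha2 : a < 1 / 2) (hc : 0 < c) (hc1 : c < 1)
    (h : 1 < c + 2 * c * a * (1 - Real.pi ^ 2 * c ^ 2 / 36 * a ^ 2)) :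
    ∃ η : ℝ, 0 < η ∧ ∀ᶠ T : ℝ in atTop, (1 - c + η) * AN ⌊T ^ a⌋₊ ≤ BN c T ⌊T ^ a⌋₊ := by
  have hkp := kp_pos
  have hCD := CD_nonneg
  have hKB := KB_nonneg
  set G : ℝ → ℝ := fun r => 2 * c * r * (1 - Real.pi ^ 2 * c ^ 2 / 36 * r ^ 2) with hG
  have hGa : 1 - c < G a := by simp only [hG]; linarith
  obtain ⟨η, hη0, hη⟩ : ∃ η : ℝ, 0 < η ∧ 1 - c + 2 * η < G a := by
    refine ⟨(G a - (1 - c)) / 4, by linarith, by linarith⟩
  have hlim : Tendsto (fun T : ℝ => Real.log ⌊T ^ a⌋₊ / Real.log T) atTop (𝓝 a) := by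
    have hlog : Tendsto (fun T : ℝ => Real.log T) atTop atTop := Real.tendsto_log_atTop
    have h1 : Tendsto (fun T : ℝ => a - Real.log 2 / Real.log T) atTop (𝓝 a) := by
      have := (tendsto_const_nhds (x := Real.log 2)).div_atTop hlog
      simpa using this.const_sub a
    refine tendsto_of_tendsto_of_tendsto_of_le_of_le' h1 tendsto_const_nhds ?_ ?_
    · filter_upwards [eventually_gt_atTop 1] with T hT
      have hT0 : 0 < T := by linarith
      have hL : 0 < Real.log T := Real.log_pos hT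
      have hTa : 1 ≤ T ^ a := Real.one_le_rpow hT.le ha.le
      have hfl : 1 ≤ ⌊T ^ a⌋₊ := (Nat.one_le_floor_iff _).2 hTa
      have hf0 : (0:ℝ) < ⌊T ^ a⌋₊ := by exact_mod_cast hfl
      have h2 : T ^ a ≤ 2 * ⌊T ^ a⌋₊ := by
        have h3 := Nat.lt_floor_add_one (T ^ a)
        have h4 : (1:ℝ) ≤ ⌊T ^ a⌋₊ := by exact_mod_cast hfl
        linarith
      have h3 := Real.log_le_log (by positivity) h2
      rw [Real.log_rpow hT0, Real.log_mul (by norm_num) hf0.ne'] at h3
      rw [sub_le_iff_le_add, ← add_div, le_div_iff₀ hL]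
      linarith
    · filter_upwards [eventually_gt_atTop 1] with T hT
      have hT0 : 0 < T := by linarith
      have hL : 0 < Real.log T := Real.log_pos hT
      have hTa : 1 ≤ T ^ a := Real.one_le_rpow hT.le ha.le
      have hfl : 1 ≤ ⌊T ^ a⌋₊ := (Nat.one_le_floor_iff _).2 hTa
      have hf0 : (0:ℝ) < ⌊T ^ a⌋₊ := by exact_mod_cast hfl
      have h3 := Real.log_le_log hf0 (Nat.floor_le (by positivity : 0 ≤ T ^ a))
      rw [Real.log_rpow hT0] at h3
      rwa [div_le_iff₀ hL]
  have hGc : Continuous G := by simp only [hG]; fun_prop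
  have h1 : ∀ᶠ T : ℝ in atTop, 1 - c + 2 * η < G (Real.log ⌊T ^ a⌋₊ / Real.log T) :=
    (hGc.continuousAt.tendsto.comp hlim).eventually (lt_mem_nhds hη)
  have h2 : ∀ᶠ T : ℝ in atTop, a / 2 < Real.log ⌊T ^ a⌋₊ / Real.log T :=
    hlim.eventually (lt_mem_nhds (by linarith))
  have h3 : ∀ᶠ T : ℝ in atTop, Real.log ⌊T ^ a⌋₊ / Real.log T < 1 / 2 :=
    hlim.eventually (gt_mem_nhds ha2)
  have h4 : ∀ᶠ T : ℝ in atTop, (KB + 2 * (2 * CD + 1) * (1 + η)) / (kp * η * (a / 2) ^ 2) ≤ Real.log T :=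
    Real.tendsto_log_atTop.eventually_ge_atTop _
  refine ⟨η, hη0, ?_⟩
  filter_upwards [h1, h2, h3, h4, Real.tendsto_log_atTop.eventually_ge_atTop 1, eventually_gt_atTop 1] with T g1 g2 g3 g4 hL1 hT
  have hL : 0 < Real.log T := by linarith
  have hTa : 1 ≤ T ^ a := Real.one_le_rpow hT.le ha.le
  have hN : 1 ≤ ⌊T ^ a⌋₊ := (Nat.one_le_floor_iff _).2 hTa
  set N := ⌊T ^ a⌋₊ with hNdef
  set L := Real.log T with hLdef
  set l := Real.log N with hl
  obtain ⟨r, hr⟩ : ∃ r, r = l / L := ⟨_, rfl⟩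
  have hlr : l = r * L := by rw [hr]; field_simp
  rw [← hr] at g1 g2 g3
  have hr0 : 0 < r := by linarith
  have hNL : l ≤ L / 2 := by rw [hlr]; nlinarith
  have hB := BN_ge hc hc1 hN hL1 hNL
  have hA := AN_upper hN
  rw [← hl] at hA
  rw [← hl, ← hLdef, ← hr] at hB
  have e1 : 2 * kp * c * (l ^ 3 / L) * (1 - Real.pi ^ 2 * c ^ 2 / 36 * r ^ 2) = kp * r ^ 2 * L ^ 2 * G r := by
    simp only [hG]
    rw [hlr]
    field_simp
  rw [e1] at hB
  have e2 : kp * l ^ 2 + (2 * CD + 1) * (1 + l) ≤ kp * r ^ 2 * L ^ 2 + 2 * (2 * CD + 1) * L := by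
    have h5 : 1 + l ≤ 2 * L := by nlinarith
    have h6 : (2 * CD + 1) * (1 + l) ≤ (2 * CD + 1) * (2 * L) := mul_le_mul_of_nonneg_left h5 (by positivity)
    rw [hlr] at h6 ⊢
    nlinarith
  have h5 : (1 - c + η) * AN N ≤ (1 - c + η) * (kp * r ^ 2 * L ^ 2 + 2 * (2 * CD + 1) * L) :=
    mul_le_mul_of_nonneg_left (hA.trans e2) (by linarith)
  have h6 : kp * r ^ 2 * L ^ 2 * (1 - c + 2 * η) ≤ kp * r ^ 2 * L ^ 2 * G r :=
    mul_le_mul_of_nonneg_left g1.le (by positivity)
  rw [div_le_iff₀ (by positivity)] at g4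
  have h7 : (KB + 2 * (2 * CD + 1) * (1 + η)) * L ≤ kp * η * r ^ 2 * L ^ 2 := by
    have h8 : (a / 2) ^ 2 ≤ r ^ 2 := pow_le_pow_left₀ (by positivity) g2.le 2
    have h9 : L * (kp * η * (a / 2) ^ 2) ≤ L * (kp * η * r ^ 2) := by gcongr
    nlinarith
  have h8 : (1 - c + η) * (2 * (2 * CD + 1) * L) ≤ (1 + η) * (2 * (2 * CD + 1) * L) :=
    mul_le_mul_of_nonneg_right (by linarith) (by positivity)
  nlinarith

end Pool.Agent.Helper69.SM
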