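import Pool.Agent.Helper69.SM.Dsum

/-!
# SM-PS: sums over primes
-/

open MeasureTheory Set Filter Topology
open ArithmeticFunction.vonMangoldt
open Pool.Agent.Helper57.Zeta Pool.Agent.Helper57.PC Pool.Agent.Helper57.LH Pool.Agent.Helper57.LS Pool.Agent.Helper78.SG
open Pool.Agent.Helper4.SH

namespace Pool.Agent.Helper69.SM

/-- lower bound of a prime power sum with a decreasing function -/
theorem low_sum {P P' : ℝ → ℝ} {l : ℝ} (hl : 0 ≤ l) (hd : ∀ u, HasDerivAt P (P' u) u)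
    (hc : Continuous P') (hneg : ∀ u ∈ Icc 0 l, P' u ≤ 0) (hend : P l = 0) :
    (∫ u in (0:ℝ)..l, P u) - CMe * P 0 ≤ ∑ n ∈ Finset.range (NX l + 1), ArithmeticFunction.vonMangoldt n / n * P (Real.log n) := by
  have hcP : Continuous P := continuous_iff_continuousAt.2 fun u => (hd u).continuousAt
  have hint : ∀ (w s : ℝ), IntervalIntegrable (fun u => (-P' u) * (w * (if s ≤ u then (1:ℝ) else 0))) volume 0 l := by
    intro w s
    have h1 : (fun u => (-P' u) * (w * (if s ≤ u then (1:ℝ) else 0))) = Set.indicator (Set.Ici s) (fun u => (-P' u) * w) := by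
      funext u
      by_cases h : s ≤ u
      · rw [Set.indicator_of_mem (show u ∈ Set.Ici s from h), if_pos h, mul_one]
      · rw [Set.indicator_of_notMem (show u ∉ Set.Ici s from h), if_neg h, mul_zero, mul_zero]
    rw [h1, intervalIntegrable_iff]
    have h2 : IntegrableOn (fun u => (-P' u) * w) (Set.uIoc 0 l) := by
      rw [← intervalIntegrable_iff]
      exact (by fun_prop : Continuous fun u => (-P' u) * w).intervalIntegrable 0 l
    exact Integrable.indicator h2 measurableSet_Ici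
  have key : ∀ n ∈ Finset.range (NX l + 1), ArithmeticFunction.vonMangoldt n / n * P (Real.log n) =
      ∫ u in (0:ℝ)..l, (-P' u) * ((ArithmeticFunction.vonMangoldt n / n) * (if Real.log n ≤ u then (1:ℝ) else 0)) := by
    intro n hn
    rcases Nat.eq_zero_or_pos n with h0 | h0
    · subst h0
      simp
    have hn1 : (1:ℝ) ≤ n := by exact_mod_cast h0
    have hn0 : (0:ℝ) < n := by linarith
    have hs0 : 0 ≤ Real.log n := Real.log_nonneg hn1
    have hsl : Real.log n ≤ l := by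
      rw [Finset.mem_range] at hn
      have h2 : n ≤ NX l := by omega
      have h3 : (n : ℝ) ≤ Real.exp l := by
        have : (NX l : ℝ) ≤ Real.exp l := Nat.floor_le (Real.exp_pos l).le
        exact (by exact_mod_cast h2 : (n:ℝ) ≤ NX l).trans this
      rwa [Real.log_le_iff_le_exp hn0]
    set s := Real.log n with hs
    set w := ArithmeticFunction.vonMangoldt n / (n:ℝ) with hw
    have hi1 : IntervalIntegrable (fun u => (-P' u) * (w * (if s ≤ u then (1:ℝ) else 0))) volume 0 s :=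
      (hint w s).mono_set (by
        rw [Set.uIcc_of_le hs0, Set.uIcc_of_le hl]
        exact Set.Icc_subset_Icc_right hsl)
    have hi2 : IntervalIntegrable (fun u => (-P' u) * (w * (if s ≤ u then (1:ℝ) else 0))) volume s l :=
      (hint w s).mono_set (by
        rw [Set.uIcc_of_le hsl, Set.uIcc_of_le hl]
        exact Set.Icc_subset_Icc_left hs0)
    rw [← intervalIntegral.integral_add_adjacent_intervals hi1 hi2]
    have e1 : ∫ u in (0:ℝ)..s, (-P' u) * (w * (if s ≤ u then (1:ℝ) else 0)) = 0 := by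
      rw [intervalIntegral.integral_congr_ae (g := fun _ => (0:ℝ))]
      · simp
      · have hne : ∀ᵐ u : ℝ, u ≠ s := by
          simp [ae_iff, measure_singleton]
        filter_upwards [hne] with u hu hmem
        rw [Set.uIoc_of_le hs0] at hmem
        have : ¬ s ≤ u := fun h => hu (le_antisymm hmem.2 h)
        rw [if_neg this, mul_zero, mul_zero]
    have e2 : ∫ u in s..l, (-P' u) * (w * (if s ≤ u then (1:ℝ) else 0)) = w * P s := by
      have e3 : ∫ u in s..l, (-P' u) * (w * (if s ≤ u then (1:ℝ) else 0)) = ∫ u in s..l, (-w) * P' u := by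
        apply intervalIntegral.integral_congr_ae
        refine Eventually.of_forall fun u hmem => ?_
        rw [Set.uIoc_of_le hsl] at hmem
        rw [if_pos hmem.1.le]
        ring
      rw [e3, intervalIntegral.integral_const_mul,
        intervalIntegral.integral_eq_sub_of_hasDerivAt (fun u _ => hd u) (hc.intervalIntegrable s l), hend]
      ring
    rw [e1, e2, zero_add]
  rw [Finset.sum_congr rfl key, ← intervalIntegral.integral_finsetSum (fun n _ => hint _ _)]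
  have e4 : ∀ u ∈ Icc 0 l, ∑ n ∈ Finset.range (NX l + 1), (-P' u) * ((ArithmeticFunction.vonMangoldt n / n) * (if Real.log n ≤ u then (1:ℝ) else 0)) =
      (-P' u) * Me u := by
    intro u hu
    rw [← Finset.mul_sum, Me_eq hu.2 hu.1]
  have e5 : (∫ u in (0:ℝ)..l, P u) - CMe * P 0 = ∫ u in (0:ℝ)..l, (-P' u) * (u - CMe) := by
    have h1 : ∀ u : ℝ, HasDerivAt (fun u => -(P u * (u - CMe))) ((-P' u) * (u - CMe) - P u) u := by
      intro u
      have h2 := ((hd u).mul ((hasDerivAt_id u).sub_const CMe)).neg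
      refine h2.congr_deriv ?_
      simp only [id]
      ring
    have h3 := intervalIntegral.integral_eq_sub_of_hasDerivAt (fun u _ => h1 u)
      ((by fun_prop : Continuous fun u => (-P' u) * (u - CMe) - P u).intervalIntegrable 0 l)
    rw [intervalIntegral.integral_sub ((by fun_prop : Continuous fun u => (-P' u) * (u - CMe)).intervalIntegrable 0 l)
      (hcP.intervalIntegrable 0 l), hend] at h3
    linarith
  rw [e5]
  have hiS : IntervalIntegrable (fun u => ∑ n ∈ Finset.range (NX l + 1), (-P' u) * ((ArithmeticFunction.vonMangoldt n / n) * (if Real.log n ≤ u then (1:ℝ) else 0))) volume 0 l := by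
    have h := IntervalIntegrable.sum (Finset.range (NX l + 1)) (f := fun (n : ℕ) (u : ℝ) => (-P' u) * ((ArithmeticFunction.vonMangoldt n / n) * (if Real.log n ≤ u then (1:ℝ) else 0)))
      (μ := volume) (a := 0) (b := l) (fun n _ => hint _ _)
    refine h.congr ?_
    intro u _
    simp
  refine intervalIntegral.integral_mono_on hl ((by fun_prop : Continuous fun u => (-P' u) * (u - CMe)).intervalIntegrable 0 l) hiS ?_
  intro u hu
  rw [e4 u hu]
  have h1 := (abs_le.1 (mertens hu.1)).1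
  have h2 : u - CMe ≤ Me u := by
    unfold Me
    linarith
  exact mul_le_mul_of_nonneg_left h2 (by linarith [hneg u hu])

/-- the divisor function at prime powers -/
theorem card_div_le {n : ℕ} (h : ArithmeticFunction.vonMangoldt n ≠ 0) : (n.divisors.card : ℝ) ≤ 24 * (n : ℝ) ^ ((1:ℝ) / 8) := by
  have hpp : IsPrimePow n := ArithmeticFunction.vonMangoldt_ne_zero_iff.1 h
  obtain ⟨p, k, hp, hk, rfl⟩ := (isPrimePow_nat_iff n).1 hpp
  rw [Nat.divisors_prime_pow hp, Finset.card_map, Finset.card_range]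
  have hp0 : (0:ℝ) < (p ^ k : ℕ) := by exact_mod_cast pow_pos hp.pos k
  have h2 := Real.log_le_rpow_div hp0.le (show (0:ℝ) < 1 / 8 by norm_num)
  have h3 : (k:ℝ) * Real.log 2 ≤ Real.log ((p ^ k : ℕ) : ℝ) := by
    push_cast
    rw [Real.log_pow]
    apply mul_le_mul_of_nonneg_left _ (by positivity)
    exact Real.log_le_log (by norm_num) (by exact_mod_cast hp.two_le)
  have h4 := Real.log_two_gt_d9
  have h5 : (1:ℝ) ≤ k := by exact_mod_cast hk
  have h6 : ((p ^ k : ℕ) : ℝ) ^ ((1:ℝ) / 8) / (1 / 8) = 8 * ((p ^ k : ℕ) : ℝ) ^ ((1:ℝ) / 8) := by ring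
  rw [h6] at h2
  have h7 : (k : ℝ) * (2 / 3) ≤ k * Real.log 2 := mul_le_mul_of_nonneg_left (by linarith) (by positivity)
  push_cast at h2 h3 h7 ⊢
  nlinarith

theorem w78 (n : ℕ) (hn : 1 ≤ n) : (n:ℝ) ^ (-(7:ℝ) / 8) - ((n:ℝ) + 1) ^ (-(7:ℝ) / 8) ≤ (n:ℝ) ^ (-(15:ℝ) / 8) := by
  have hn0 : (0:ℝ) < n := by exact_mod_cast hn
  have hn1 : (1:ℝ) ≤ n := by exact_mod_cast hn
  have h0 : (0:ℝ) < 1 / n := by positivity
  have h0' : 1 / (n:ℝ) ≤ 1 := by rw [div_le_one hn0]; exact hn1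
  have h1 : (1 + 1 / (n:ℝ)) ^ ((7:ℝ) / 8) ≤ 1 + (7 / 8) * (1 / (n:ℝ)) :=
    rpow_one_add_le_one_add_mul_self (by linarith) (by norm_num) (by norm_num)
  have h2 : (n:ℝ) + 1 = n * (1 + 1 / n) := by field_simp
  have h3 : ((n:ℝ) + 1) ^ (-(7:ℝ) / 8) = (n:ℝ) ^ (-(7:ℝ) / 8) * ((1 + 1 / (n:ℝ)) ^ ((7:ℝ) / 8))⁻¹ := by
    rw [h2, Real.mul_rpow hn0.le (by positivity), neg_div, Real.rpow_neg (x := 1 + 1 / (n:ℝ)) (by positivity)]
  have h5 : (0:ℝ) < (1 + 1 / (n:ℝ)) ^ ((7:ℝ) / 8) := by positivity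
  have h4 : 1 - 1 / (n:ℝ) ≤ ((1 + 1 / (n:ℝ)) ^ ((7:ℝ) / 8))⁻¹ := by
    rw [← one_div, le_div_iff₀ h5]
    have h6 : (1 - 1 / (n:ℝ)) * (1 + 1 / (n:ℝ)) ^ ((7:ℝ) / 8) ≤ (1 - 1 / (n:ℝ)) * (1 + (7 / 8) * (1 / (n:ℝ))) :=
      mul_le_mul_of_nonneg_left h1 (by linarith)
    nlinarith
  have h6 : (n:ℝ) ^ (-(15:ℝ) / 8) = (n:ℝ) ^ (-(7:ℝ) / 8) * (1 / n) := by
    rw [one_div, ← Real.rpow_neg_one, ← Real.rpow_add hn0]
    norm_num
  have h7 : 0 < (n:ℝ) ^ (-(7:ℝ) / 8) := by positivity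
  rw [h3, h6]
  nlinarith

theorem abel78 (A a : ℕ → ℝ) (w : ℕ → ℝ) (h0 : A 0 = 0) (hA : ∀ n, A (n + 1) = A n + a (n + 1)) (M : ℕ) :
    ∑ n ∈ Finset.Icc 1 (M + 1), a n * w n = A (M + 1) * w (M + 1) + ∑ n ∈ Finset.Icc 1 M, A n * (w n - w (n + 1)) := by
  induction M with
  | zero => simp [hA, h0]
  | succ M ih =>
    rw [Finset.sum_Icc_succ_top (by omega), ih, Finset.sum_Icc_succ_top (by omega : 1 ≤ M + 1), hA (M + 1)]
    ring

/-- constant -/
noncomputable def CT : ℝ := 24 * (8 + 8 * ∑' n : ℕ, 1 / (n:ℝ) ^ ((9:ℝ) / 8))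

theorem CT_nonneg : 0 ≤ CT := by
  unfold CT
  have : 0 ≤ ∑' n : ℕ, 1 / (n:ℝ) ^ ((9:ℝ) / 8) := tsum_nonneg fun n => by positivity
  positivity

theorem np_sum (M : ℕ) : ∑ n ∈ Finset.Icc 1 M, aN n * (n.divisors.card : ℝ) / n ≤ CT := by
  rcases Nat.eq_zero_or_pos M with rfl | hM
  · simpa using CT_nonneg
  obtain ⟨K, rfl⟩ : ∃ K, M = K + 1 := ⟨M - 1, by omega⟩
  have h1 : ∀ n ∈ Finset.Icc 1 (K + 1), aN n * (n.divisors.card : ℝ) / n ≤ 24 * (aN n * (n:ℝ) ^ (-(7:ℝ) / 8)) := by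
    intro n hn
    have hn1 := (Finset.mem_Icc.1 hn).1
    have hn0 : (0:ℝ) < n := by exact_mod_cast hn1
    by_cases h : ArithmeticFunction.vonMangoldt n = 0
    · have : aN n = 0 := by
        unfold aN
        split_ifs
        · rfl
        · exact h
      rw [this]
      simp
    · have h2 := card_div_le h
      have h3 := aN_nonneg n
      have h4 : (n:ℝ) ^ (-(7:ℝ) / 8) = (n:ℝ) ^ ((1:ℝ) / 8) / n := by
        rw [div_eq_mul_inv _ (n:ℝ), ← Real.rpow_neg_one, ← Real.rpow_add hn0]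
        norm_num
      rw [h4]
      calc aN n * (n.divisors.card : ℝ) / n ≤ aN n * (24 * (n:ℝ) ^ ((1:ℝ) / 8)) / n := by
            gcongr
        _ = _ := by ring
  refine (Finset.sum_le_sum h1).trans ?_
  rw [← Finset.mul_sum]
  unfold CT
  refine mul_le_mul_of_nonneg_left ?_ (by norm_num)
  set A : ℕ → ℝ := fun m => ∑ n ∈ Finset.range (m + 1), aN n with hA
  have hA0 : A 0 = 0 := by
    simp only [hA]
    simp [aN]
  have hAb : ∀ m : ℕ, 1 ≤ m → A m ≤ 8 * (m:ℝ) ^ ((3:ℝ) / 4) := fun m hm => aN_sum_le hm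
  have hAn : ∀ m : ℕ, 0 ≤ A m := fun m => Finset.sum_nonneg fun n _ => aN_nonneg n
  have h2 := abel78 A aN (fun n => (n:ℝ) ^ (-(7:ℝ) / 8)) hA0 (fun n => by
    simp only [hA]
    rw [Finset.sum_range_succ]) K
  rw [h2]
  apply add_le_add
  · have hK : (1:ℝ) ≤ ((K + 1 : ℕ) : ℝ) := by
      push_cast
      have : (0:ℝ) ≤ K := by positivity
      linarith
    have hK0 : (0:ℝ) < ((K + 1 : ℕ) : ℝ) := by linarith
    have h3 := hAb (K + 1) (by omega)
    have h4 : ((K + 1 : ℕ) : ℝ) ^ ((3:ℝ) / 4) * ((K + 1 : ℕ) : ℝ) ^ (-(7:ℝ) / 8) ≤ 1 := by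
      rw [← Real.rpow_add hK0]
      exact Real.rpow_le_one_of_one_le_of_nonpos hK (by norm_num)
    have h5 : 0 < ((K + 1 : ℕ) : ℝ) ^ (-(7:ℝ) / 8) := by positivity
    calc A (K + 1) * ((K + 1 : ℕ) : ℝ) ^ (-(7:ℝ) / 8) ≤ (8 * ((K + 1 : ℕ) : ℝ) ^ ((3:ℝ) / 4)) * ((K + 1 : ℕ) : ℝ) ^ (-(7:ℝ) / 8) :=
          mul_le_mul_of_nonneg_right h3 h5.le
      _ = 8 * (((K + 1 : ℕ) : ℝ) ^ ((3:ℝ) / 4) * ((K + 1 : ℕ) : ℝ) ^ (-(7:ℝ) / 8)) := by ring
      _ ≤ 8 := by linarith
  · have hs : Summable (fun n : ℕ => 1 / (n:ℝ) ^ ((9:ℝ) / 8)) := Real.summable_one_div_nat_rpow.mpr (by norm_num)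
    rw [← tsum_mul_left]
    refine le_trans ?_ ((hs.mul_left 8).sum_le_tsum (Finset.Icc 1 K) (fun n _ => by positivity))
    refine Finset.sum_le_sum fun n hn => ?_
    have hn1 := (Finset.mem_Icc.1 hn).1
    have hn0 : (0:ℝ) < n := by exact_mod_cast hn1
    have h3 := hAb n hn1
    have h4 := w78 n hn1
    have h5 : (n:ℝ) ^ ((3:ℝ) / 4) * (n:ℝ) ^ (-(15:ℝ) / 8) = 1 / (n:ℝ) ^ ((9:ℝ) / 8) := by
      rw [← Real.rpow_add hn0, one_div, ← Real.rpow_neg hn0.le]
      norm_num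
    push_cast
    calc A n * ((n:ℝ) ^ (-(7:ℝ) / 8) - ((n:ℝ) + 1) ^ (-(7:ℝ) / 8)) ≤ A n * (n:ℝ) ^ (-(15:ℝ) / 8) :=
          mul_le_mul_of_nonneg_left h4 (hAn n)
      _ ≤ (8 * (n:ℝ) ^ ((3:ℝ) / 4)) * (n:ℝ) ^ (-(15:ℝ) / 8) := mul_le_mul_of_nonneg_right h3 (by positivity)
      _ = 8 * (1 / (n:ℝ) ^ ((9:ℝ) / 8)) := by rw [← h5]; ring

end Pool.Agent.Helper69.SM
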